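import Pool.Agent.TH841.NO.Stm
import Pool.Agent.TH841.NO.Main
import Pool.Agent.TH841.SH.Kum

/-!
# Project IS (helper676): the Tate-Shafarevich groups of the 2-isogenous curves

`E = EQ A B : y² = x (x - A) (x - B)`, `E' = WI A B = E / ⟨(0, 0)⟩ : y² = x³ + 2 (A + B) x² + (A - B)² x`.
If `E` has rank zero and trivial 2-primary Tate-Shafarevich group then the 2-primary part of the
Tate-Shafarevich group of `E'` is finite, and killed by 2.
-/

set_option autoImplicit false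

namespace Pool.Agent.Y676.IS

open WeierstrassCurve

open Pool.Agent.TH841.SH.D

open Pool.Agent.TH841.LS (WI LocI T0 coc)

open Pool.Agent.TH841.PT (EQ)

/-- **ISO** (the 2-isogeny and its dual, as homomorphisms, over all fields of characteristic zero):
`psi (x, y) = (y² / (4 x²), y ((A - B)² - x²) / (8 x²))`,
`phi (x, y) = (y² / x², y (A B - x²) / x²)`. -/
def S_ISO : Prop := ∀ (A B : ℤ) (h : A ≠ B), A ≠ 0 → B ≠ 0 →
  ∃ (psi : ∀ (L : Type) [Field L] [Algebra ℚ L], Pt (WI A B) L →+ Pt (EQ A B) L)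
    (phi : ∀ (L : Type) [Field L] [Algebra ℚ L], Pt (EQ A B) L →+ Pt (WI A B) L),
    (∀ (F L : Type) [Field F] [Field L] [Algebra ℚ F] [Algebra ℚ L] (f : F →ₐ[ℚ] L)
      (P : Pt (WI A B) F), act (EQ A B) f (psi F P) = psi L (act (WI A B) f P)) ∧
    (∀ (F L : Type) [Field F] [Field L] [Algebra ℚ F] [Algebra ℚ L] (f : F →ₐ[ℚ] L)
      (P : Pt (EQ A B) F), act (WI A B) f (phi F P) = phi L (act (EQ A B) f P)) ∧
    (∀ (L : Type) [Field L] [Algebra ℚ L] (P : Pt (WI A B) L), phi L (psi L P) = P + P) ∧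
    (∀ (L : Type) [Field L] [Algebra ℚ L] (P : Pt (EQ A B) L), psi L (phi L P) = P + P) ∧
    (∀ (L : Type) [Field L] [Algebra ℚ L] (P : Pt (WI A B) L),
      psi L P = 0 → P = 0 ∨ P = T0 h L)

/-- **LCB** (the local version of `Pool.Agent.TH841.LS.COB`): if `χ_d T` is trivial over `K` then `d`
comes from a point over `K`. -/
def S_LCB : Prop := ∀ (A B : ℤ) (h : A ≠ B) (d : ℤ), A ≠ 0 → B ≠ 0 → d ≠ 0 →
  ∀ (K : Type) [Field K] [Algebra ℚ K], LocTriv (WI A B) K (coc h d) →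
    IsSquare (d : K) ∨ IsSquare ((d : K) * (A * B)) ∨ LocI K A B d

/-- **LQU**: the classes which are locally trivial everywhere are in the set `SQ`. -/
def S_LQU : Prop := ∀ (A B d : ℤ), A ≠ 0 → B ≠ 0 → A ≠ B → Squarefree d →
  (IsSquare (d : ℝ) ∨ IsSquare ((d : ℝ) * (A * B)) ∨ LocI ℝ A B d) →
  (∀ (p : ℕ) [Fact p.Prime], IsSquare (d : ℚ_[p]) ∨ IsSquare ((d : ℚ_[p]) * (A * B)) ∨
    LocI ℚ_[p] A B d) →
  d ∈ Pool.Agent.TH841.NO.SQ (-(A + B)) (A * B)

/-- **SQF**: the set `SQ` is finite. -/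
def S_SQF : Prop := ∀ (a b : ℤ), b ≠ 0 → (Pool.Agent.TH841.NO.SQ a b).Finite

end Pool.Agent.Y676.IS
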