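import Mathlib

/-!
# Project IS: the 2-isogeny, the formulas
-/

set_option autoImplicit false

namespace Pool.Agent.Y676.IS

open WeierstrassCurve

section Curve

variable {F : Type} [Field F] [CharZero F]

/-- the curve `y² = x³ + a x² + b x` -/
def Cu (a b : F) : WeierstrassCurve.Affine F := ⟨0, a, 0, b, 0⟩

lemma cu_eq {a b x y : F} : (Cu a b).Equation x y ↔ y ^ 2 = x ^ 3 + a * x ^ 2 + b * x := by
  rw [Affine.equation_iff]
  simp [Cu]

lemma cu_ns {a b x y : F} (hb : b ≠ 0) (hd : a ^ 2 - 4 * b ≠ 0)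
    (h : y ^ 2 = x ^ 3 + a * x ^ 2 + b * x) : (Cu a b).Nonsingular x y := by
  rw [Affine.nonsingular_iff', Affine.equation_iff']
  have e1 : (Cu a b).a₁ = 0 := rfl
  have e2 : (Cu a b).a₂ = a := rfl
  have e3 : (Cu a b).a₃ = 0 := rfl
  have e4 : (Cu a b).a₄ = b := rfl
  have e6 : (Cu a b).a₆ = 0 := rfl
  rw [e1, e2, e3, e4, e6]
  refine ⟨by linear_combination h, ?_⟩
  by_contra hcon
  push Not at hcon
  obtain ⟨h1, h2⟩ := hcon
  have hy : y = 0 := by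
    have : (2 : F) * y = 0 := by linear_combination h2
    exact (mul_eq_zero.1 this).resolve_left two_ne_zero
  have h3 : 3 * x ^ 2 + 2 * a * x + b = 0 := by linear_combination -h1
  have h4 : x * (x ^ 2 + a * x + b) = 0 := by
    rw [hy] at h
    linear_combination -h
  rcases mul_eq_zero.1 h4 with h5 | h5
  · rw [h5] at h3
    apply hb
    linear_combination h3
  · -- `x² + a x + b = 0` and `2 x + a = 0`
    have h6 : x * (2 * x + a) = 0 := by linear_combination h3 - h5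
    rcases mul_eq_zero.1 h6 with h7 | h7
    · rw [h7] at h5
      apply hb
      linear_combination h5
    · apply hd
      linear_combination (a + 2 * x) * h7 - 4 * h5

lemma ns_eq {a b x y : F} (h : (Cu a b).Nonsingular x y) :
    y ^ 2 = x ^ 3 + a * x ^ 2 + b * x := cu_eq.1 h.1

/-- the data of a 2-isogeny -/
structure Dat (a b a' b' u : F) : Prop where
  hb : b ≠ 0
  hb' : b' ≠ 0
  hu : u ≠ 0
  e1 : u ^ 2 * a' = -2 * a
  e2 : u ^ 4 * b' = a ^ 2 - 4 * b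

variable {a b a' b' u : F}

lemma Dat.hd (h : Dat a b a' b' u) : a ^ 2 - 4 * b ≠ 0 := by
  rw [← h.e2]
  exact mul_ne_zero (pow_ne_zero 4 h.hu) h.hb'

lemma Dat.ea (h : Dat a b a' b' u) : a' = -2 * a / u ^ 2 := by
  rw [eq_div_iff (pow_ne_zero 2 h.hu), mul_comm]
  exact h.e1

lemma Dat.eb (h : Dat a b a' b' u) : b' = (a ^ 2 - 4 * b) / u ^ 4 := by
  rw [eq_div_iff (pow_ne_zero 4 h.hu), mul_comm]
  exact h.e2

lemma Dat.hd' (h : Dat a b a' b' u) : a' ^ 2 - 4 * b' ≠ 0 := by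
  have hu := h.hu
  have : a' ^ 2 - 4 * b' = 16 * b / u ^ 4 := by
    rw [h.ea, h.eb]
    field_simp
    ring
  rw [this]
  exact div_ne_zero (mul_ne_zero (by norm_num) h.hb) (pow_ne_zero 4 h.hu)

lemma img (h : Dat a b a' b' u) {x y : F} (hx : x ≠ 0) (he : y ^ 2 = x ^ 3 + a * x ^ 2 + b * x) :
    (y * (b - x ^ 2) / (u ^ 3 * x ^ 2)) ^ 2 = (y ^ 2 / (u ^ 2 * x ^ 2)) ^ 3 +
      a' * (y ^ 2 / (u ^ 2 * x ^ 2)) ^ 2 + b' * (y ^ 2 / (u ^ 2 * x ^ 2)) := by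
  have hu := h.hu
  have e0 : (y * (b - x ^ 2) / (u ^ 3 * x ^ 2)) ^ 2 = y ^ 2 * (b - x ^ 2) ^ 2 / (u ^ 6 * x ^ 4) := by
    field_simp
  rw [e0, h.ea, h.eb, he]
  field_simp
  ring

/-- the image of a point -/
noncomputable def isoF (h : Dat a b a' b' u) : (Cu a b).Point → (Cu a' b').Point
  | .zero => .zero
  | .some x y hxy => open Classical in if hx : x = 0 then .zero else
      .some (y ^ 2 / (u ^ 2 * x ^ 2)) (y * (b - x ^ 2) / (u ^ 3 * x ^ 2))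
        (cu_ns h.hb' h.hd' (img h hx (ns_eq hxy)))

/-- the point `(0, 0)` -/
def TT (hb : b ≠ 0) (hd : a ^ 2 - 4 * b ≠ 0) : (Cu a b).Point :=
  .some 0 0 (cu_ns hb hd (by ring))

end Curve

/-! ### The line through two points -/

section Line

variable {F : Type} [Field F] [CharZero F] {a b a' b' u : F}

/-- the image of a point of the line `y = l x + n` is on the line
`u n Y + (l n - b) X + ... = 0` -/
lemma line (h : Dat a b a' b' u) {x y l n : F} (hx : x ≠ 0)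
    (he : y ^ 2 = x ^ 3 + a * x ^ 2 + b * x) (hl : y = l * x + n) :
    u ^ 3 * n * (y * (b - x ^ 2) / (u ^ 3 * x ^ 2)) +
      (l * n - b) * u ^ 2 * (y ^ 2 / (u ^ 2 * x ^ 2)) + (l ^ 2 * b - a * l * n + n ^ 2) = 0 := by
  have hu := h.hu
  have key : n * y * (b - x ^ 2) + (l * n - b) * y ^ 2 + (l ^ 2 * b - a * l * n + n ^ 2) * x ^ 2
      = 0 := by
    have hn : n = y - l * x := by rw [hl]; ring
    subst hn
    linear_combination (l * (y - l * x)) * he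
  field_simp
  linear_combination key

/-- the relations of Vieta -/
lemma vieta {x1 y1 x2 y2 l n : F} (he1 : y1 ^ 2 = x1 ^ 3 + a * x1 ^ 2 + b * x1)
    (he2 : y2 ^ 2 = x2 ^ 3 + a * x2 ^ 2 + b * x2) (h12 : x1 ≠ x2) (hl1 : y1 = l * x1 + n)
    (hl2 : y2 = l * x2 + n) :
    x1 * x2 + (l ^ 2 - a - x1 - x2) * (x1 + x2) = b - 2 * l * n ∧
      x1 * x2 * (l ^ 2 - a - x1 - x2) = n ^ 2 := by
  have hs : x1 - x2 ≠ 0 := sub_ne_zero.2 h12
  subst hl1 hl2
  have h1 : x1 * x2 + (l ^ 2 - a - x1 - x2) * (x1 + x2) = b - 2 * l * n := by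
    apply mul_left_cancel₀ hs
    linear_combination he1 - he2
  refine ⟨h1, ?_⟩
  linear_combination x1 * h1 - he1

/-- the sum of the three abscissas of the images -/
lemma sumX {x1 x2 x3 l n : F} (hu : u ≠ 0) (h1 : x1 ≠ 0) (h2 : x2 ≠ 0) (h3 : x3 ≠ 0)
    (hn : n ≠ 0) (e1 : x1 + x2 + x3 = l ^ 2 - a) (e2 : x1 * x2 + x3 * (x1 + x2) = b - 2 * l * n)
    (e3 : x1 * x2 * x3 = n ^ 2) :
    (l * x1 + n) ^ 2 / (u ^ 2 * x1 ^ 2) + (l * x2 + n) ^ 2 / (u ^ 2 * x2 ^ 2) +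
      (l * x3 + n) ^ 2 / (u ^ 2 * x3 ^ 2) = ((b - l * n) / (u * n)) ^ 2 + 2 * a / u ^ 2 := by
  have s1 : 1 / x1 + 1 / x2 + 1 / x3 = (b - 2 * l * n) / n ^ 2 := by
    rw [← e2, ← e3]
    field_simp
    ring
  have s2 : 1 / (x1 * x2) + 1 / (x1 * x3) + 1 / (x2 * x3) = (l ^ 2 - a) / n ^ 2 := by
    rw [← e1, ← e3]
    field_simp
    ring
  have t : ∀ x : F, x ≠ 0 → (l * x + n) ^ 2 / (u ^ 2 * x ^ 2) = (l + n * (1 / x)) ^ 2 / u ^ 2 := by
    intro x hx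
    field_simp
  rw [t x1 h1, t x2 h2, t x3 h3]
  have q : ∀ p q r : F, (l + n * p) ^ 2 / u ^ 2 + (l + n * q) ^ 2 / u ^ 2 + (l + n * r) ^ 2 / u ^ 2 =
      (3 * l ^ 2 + 2 * l * n * (p + q + r) + n ^ 2 * ((p + q + r) ^ 2 -
        2 * (p * q + p * r + q * r))) / u ^ 2 := by
    intro p q r
    ring
  rw [q, s1]
  have s3 : 1 / x1 * (1 / x2) + 1 / x1 * (1 / x3) + 1 / x2 * (1 / x3) = (l ^ 2 - a) / n ^ 2 := by
    rw [← s2]
    field_simp
  rw [s3]
  field_simp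
  ring

end Line

end Pool.Agent.Y676.IS
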