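import Pool.Agent.Y676.IS.Alg

/-!
# Project IS: the 2-isogeny is additive in general position
-/

set_option autoImplicit false
set_option linter.unusedSectionVars false

namespace Pool.Agent.Y676.IS

open WeierstrassCurve

variable {F : Type} [Field F] [CharZero F] {a b a' b' u : F}

lemma isoF_zero (h : Dat a b a' b' u) : isoF h (0 : (Cu a b).Point) = 0 := rfl

lemma isoF_x0 (h : Dat a b a' b' u) {x y : F} (hxy : (Cu a b).Nonsingular x y) (hx : x = 0) :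
    isoF h (.some x y hxy) = 0 := dif_pos hx

lemma isoF_some (h : Dat a b a' b' u) {x y : F} (hxy : (Cu a b).Nonsingular x y) (hx : x ≠ 0) :
    isoF h (.some x y hxy) = .some (y ^ 2 / (u ^ 2 * x ^ 2)) (y * (b - x ^ 2) / (u ^ 3 * x ^ 2))
      (cu_ns h.hb' h.hd' (img h hx (ns_eq hxy))) := dif_neg hx

lemma some_congr {W : WeierstrassCurve.Affine F} {x y x' y' : F} (h : W.Nonsingular x y)
    (h' : W.Nonsingular x' y') (hx : x = x') (hy : y = y') :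
    (.some x y h : W.Point) = .some x' y' h' := by
  subst hx hy
  rfl

variable [DecidableEq F]

lemma add_ne {x1 y1 x2 y2 x3 y3 : F} (h1 : (Cu a b).Nonsingular x1 y1)
    (h2 : (Cu a b).Nonsingular x2 y2) (h3 : (Cu a b).Nonsingular x3 y3) (hx : x1 ≠ x2)
    (e3 : x3 = ((y1 - y2) / (x1 - x2)) ^ 2 - a - x1 - x2)
    (f3 : y3 = -((y1 - y2) / (x1 - x2) * (x3 - x1) + y1)) :
    (.some x1 y1 h1 : (Cu a b).Point) + .some x2 y2 h2 = .some x3 y3 h3 := by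
  rw [Affine.Point.add_of_X_ne hx]
  have a1 : (Cu a b).a₁ = 0 := rfl
  have a2 : (Cu a b).a₂ = a := rfl
  have a3 : (Cu a b).a₃ = 0 := rfl
  apply some_congr
  · rw [Affine.slope_of_X_ne hx, Affine.addX, a1, a2, e3]
    ring
  · rw [Affine.slope_of_X_ne hx, Affine.addY, Affine.negY, Affine.negAddY, Affine.addX, a1, a2, a3,
      f3, e3]
    ring

lemma neg_some {x y : F} (h : (Cu a b).Nonsingular x y) (h' : (Cu a b).Nonsingular x (-y)) :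
    -(.some x y h : (Cu a b).Point) = .some x (-y) h' := by
  rw [Affine.Point.neg_some]
  have a1 : (Cu a b).a₁ = 0 := rfl
  have a3 : (Cu a b).a₃ = 0 := rfl
  apply some_congr _ _ rfl
  rw [Affine.negY, a1, a3]
  ring

/-- the translation by `T = (0, 0)` -/
lemma add_T (hb : b ≠ 0) (hd : a ^ 2 - 4 * b ≠ 0) {x y : F} (h : (Cu a b).Nonsingular x y)
    (hx : x ≠ 0) (h' : (Cu a b).Nonsingular (b / x) (-(b * y / x ^ 2))) :
    (.some x y h : (Cu a b).Point) + TT hb hd = .some (b / x) (-(b * y / x ^ 2)) h' := by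
  have e0 := ns_eq h
  unfold TT
  refine add_ne _ _ _ hx ?_ ?_
  · rw [sub_zero, sub_zero, sub_zero]
    field_simp
    linear_combination -e0
  · rw [sub_zero, sub_zero]
    field_simp
    ring

lemma T_add_T (hb : b ≠ 0) (hd : a ^ 2 - 4 * b ≠ 0) : TT hb hd + TT hb hd = 0 := by
  unfold TT
  apply Affine.Point.add_of_Y_eq rfl
  have a1 : (Cu a b).a₁ = 0 := rfl
  have a3 : (Cu a b).a₃ = 0 := rfl
  rw [Affine.negY, a1, a3]
  ring

/-- **additivity in general position** -/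
theorem gen (h : Dat a b a' b' u) {x1 y1 x2 y2 : F} (h1 : (Cu a b).Nonsingular x1 y1)
    (h2 : (Cu a b).Nonsingular x2 y2) (hx1 : x1 ≠ 0) (hx2 : x2 ≠ 0) (h12 : x1 ≠ x2)
    (h12' : x1 * x2 ≠ b) (hn : y1 * x2 ≠ y2 * x1) :
    isoF h ((.some x1 y1 h1 : (Cu a b).Point) + .some x2 y2 h2) =
      isoF h (.some x1 y1 h1) + isoF h (.some x2 y2 h2) := by
  have hu := h.hu
  have he1 := ns_eq h1
  have he2 := ns_eq h2
  have hs : x1 - x2 ≠ 0 := sub_ne_zero.2 h12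
  obtain ⟨l, hl⟩ : ∃ l, l = (y1 - y2) / (x1 - x2) := ⟨_, rfl⟩
  obtain ⟨n, hn'⟩ : ∃ n, n = y1 - l * x1 := ⟨_, rfl⟩
  have hl1 : y1 = l * x1 + n := by rw [hn']; ring
  have hl2 : y2 = l * x2 + n := by
    rw [hn', hl]
    field_simp
    ring
  have hn0 : n ≠ 0 := by
    intro h0
    apply hn
    rw [hl1, hl2, h0]
    ring
  obtain ⟨x3, hx3⟩ : ∃ x3, x3 = l ^ 2 - a - x1 - x2 := ⟨_, rfl⟩
  obtain ⟨v1, v2⟩ := vieta he1 he2 h12 hl1 hl2
  rw [← hx3] at v1 v2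
  have hx30 : x3 ≠ 0 := by
    intro h0
    rw [h0, mul_zero] at v2
    exact hn0 (pow_eq_zero_iff two_ne_zero |>.1 v2.symm)
  have s1 : x1 + x2 + x3 = l ^ 2 - a := by rw [hx3]; ring
  -- the third point
  have e3 : (-(l * x3 + n)) ^ 2 = x3 ^ 3 + a * x3 ^ 2 + b * x3 := by
    have g1 : (l * x3 + n) ^ 2 = x3 ^ 3 + a * x3 ^ 2 + b * x3 := by
      linear_combination (-x3 ^ 2) * s1 + x3 * v1 - v2
    rw [neg_sq, g1]
  have h3 : (Cu a b).Nonsingular x3 (-(l * x3 + n)) := cu_ns h.hb h.hd e3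
  rw [add_ne h1 h2 h3 h12 (by rw [← hl, hx3]) (by rw [← hl]; linear_combination hl1), isoF_some h h3 hx30,
    isoF_some h h1 hx1, isoF_some h h2 hx2]
  have q3 : (-(l * x3 + n)) ^ 2 / (u ^ 2 * x3 ^ 2) = (l * x3 + n) ^ 2 / (u ^ 2 * x3 ^ 2) := by
    rw [neg_sq]
  have k1 := line h hx1 he1 hl1
  have k2 := line h hx2 he2 hl2
  have k3 := line h hx30 (y := l * x3 + n) (l := l) (n := n) (by
    rw [← e3]
    ring) rfl
  have X12 : y1 ^ 2 / (u ^ 2 * x1 ^ 2) - y2 ^ 2 / (u ^ 2 * x2 ^ 2) =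
      (x1 - x2) * (x1 * x2 - b) / (u ^ 2 * x1 * x2) := by
    rw [he1, he2]
    field_simp
    ring
  have hX : y1 ^ 2 / (u ^ 2 * x1 ^ 2) ≠ y2 ^ 2 / (u ^ 2 * x2 ^ 2) := by
    intro h0
    rw [h0, sub_self] at X12
    have h4 : (x1 - x2) * (x1 * x2 - b) / (u ^ 2 * x1 * x2) ≠ 0 := by
      refine div_ne_zero (mul_ne_zero hs (sub_ne_zero.2 h12')) ?_
      exact mul_ne_zero (mul_ne_zero (pow_ne_zero 2 hu) hx1) hx2
    exact h4 X12.symm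
  obtain ⟨X1, hX1⟩ : ∃ X1, X1 = y1 ^ 2 / (u ^ 2 * x1 ^ 2) := ⟨_, rfl⟩
  obtain ⟨X2, hX2⟩ : ∃ X2, X2 = y2 ^ 2 / (u ^ 2 * x2 ^ 2) := ⟨_, rfl⟩
  obtain ⟨Y1, hY1⟩ : ∃ Y1, Y1 = y1 * (b - x1 ^ 2) / (u ^ 3 * x1 ^ 2) := ⟨_, rfl⟩
  obtain ⟨Y2, hY2⟩ : ∃ Y2, Y2 = y2 * (b - x2 ^ 2) / (u ^ 3 * x2 ^ 2) := ⟨_, rfl⟩
  obtain ⟨X3, hX3⟩ : ∃ X3, X3 = (l * x3 + n) ^ 2 / (u ^ 2 * x3 ^ 2) := ⟨_, rfl⟩
  obtain ⟨Y3, hY3⟩ : ∃ Y3, Y3 = (l * x3 + n) * (b - x3 ^ 2) / (u ^ 3 * x3 ^ 2) := ⟨_, rfl⟩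
  have sX := sumX hu hx1 hx2 hx30 hn0 s1 v1 v2
  rw [← hl1, ← hl2, ← hX1, ← hX2, ← hX3] at sX
  rw [← hX1, ← hY1] at k1
  rw [← hX2, ← hY2] at k2
  rw [← hX3, ← hY3] at k3
  rw [← hX1, ← hX2] at hX
  have hXs : X1 - X2 ≠ 0 := sub_ne_zero.2 hX
  have hsl : (Y1 - Y2) / (X1 - X2) = (b - l * n) / (u * n) := by
    rw [div_eq_div_iff hXs (mul_ne_zero hu hn0)]
    apply mul_left_cancel₀ (pow_ne_zero 2 hu)
    linear_combination k1 - k2
  symm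
  refine (add_ne (a := a') (b := b') _ _ (cu_ns h.hb' h.hd' (img h hx30 (ns_eq h3))) ?_ ?_ ?_)
  · rw [← hX1, ← hX2]
    exact hX
  · rw [← hX1, ← hX2, ← hY1, ← hY2, hsl, q3, ← hX3, h.ea]
    linear_combination sX
  · rw [← hX1, ← hX2, ← hY1, ← hY2, hsl, q3, ← hX3]
    have e4 : -(l * x3 + n) * (b - x3 ^ 2) / (u ^ 3 * x3 ^ 2) = - Y3 := by
      rw [hY3]
      ring
    have k4 : u * n * (Y3 - Y1) + (l * n - b) * (X3 - X1) = 0 := by
      apply mul_left_cancel₀ (pow_ne_zero 2 hu)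
      linear_combination k3 - k1
    rw [e4, neg_inj]
    field_simp
    linear_combination k4

end Pool.Agent.Y676.IS
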