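import Pool.Agent.Y676.IS.Alg3

/-!
# Project IS: the composition of the isogeny and its dual is the multiplication by two
-/

set_option autoImplicit false
set_option linter.unusedSectionVars false

namespace Pool.Agent.Y676.IS

open WeierstrassCurve

variable {F : Type} [Field F] [CharZero F] {a b a' b' u u' : F} [DecidableEq F]

lemma add_self' {x y x3 y3 : F} (h : (Cu a b).Nonsingular x y)
    (h3 : (Cu a b).Nonsingular x3 y3) (hy : y ≠ 0)
    (e3 : x3 = ((3 * x ^ 2 + 2 * a * x + b) / (2 * y)) ^ 2 - a - 2 * x)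
    (f3 : y3 = -((3 * x ^ 2 + 2 * a * x + b) / (2 * y) * (x3 - x) + y)) :
    (.some x y h : (Cu a b).Point) + .some x y h = .some x3 y3 h3 := by
  have a1 : (Cu a b).a₁ = 0 := rfl
  have a2 : (Cu a b).a₂ = a := rfl
  have a3 : (Cu a b).a₃ = 0 := rfl
  have a4 : (Cu a b).a₄ = b := rfl
  have hne : y ≠ (Cu a b).negY x y := by
    rw [Affine.negY, a1, a3]
    intro h0
    apply hy
    have : (2 : F) * y = 0 := by linear_combination h0
    exact (mul_eq_zero.1 this).resolve_left two_ne_zero
  have hsl : (Cu a b).slope x x y y = (3 * x ^ 2 + 2 * a * x + b) / (2 * y) := by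
    rw [Affine.slope_of_Y_ne rfl hne, Affine.negY, a1, a2, a3, a4]
    congr 1 <;> ring
  rw [Affine.Point.add_self_of_Y_ne hne]
  apply some_congr
  · rw [hsl, Affine.addX, a1, a2, e3]
    ring
  · rw [hsl, Affine.addY, Affine.negY, Affine.negAddY, Affine.addX, a1, a2, a3, f3, e3]
    ring

theorem dbl (h : Dat a b a' b' u) (h' : Dat a' b' a b u') (huu : u * u' = 2)
    (P : (Cu a b).Point) : isoF h' (isoF h P) = P + P := by
  rcases P with _ | ⟨x, y, hxy⟩
  · change isoF h' (isoF h 0) = 0 + 0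
    rw [isoF_zero, isoF_zero, add_zero]
  · by_cases hx : x = 0
    · rw [isT_of_x0 h.hb h.hd hxy hx, isoF_T, isoF_zero, T_add_T]
    · have hu := h.hu
      have hu' := h'.hu
      have e0 := ns_eq hxy
      rw [isoF_some h _ hx]
      by_cases hy : y = 0
      · have h1 : y ^ 2 / (u ^ 2 * x ^ 2) = 0 := by
          rw [hy]
          simp
        rw [isoF_x0 h' _ h1]
        symm
        apply Affine.Point.add_of_Y_eq rfl
        have a1 : (Cu a b).a₁ = 0 := rfl
        have a3 : (Cu a b).a₃ = 0 := rfl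
        rw [Affine.negY, a1, a3, hy]
        ring
      · have hX : y ^ 2 / (u ^ 2 * x ^ 2) ≠ 0 :=
          div_ne_zero (pow_ne_zero 2 hy) (mul_ne_zero (pow_ne_zero 2 hu) (pow_ne_zero 2 hx))
        rw [isoF_some h' _ hX]
        symm
        have hu2 : u' = 2 / u := by
          rw [eq_div_iff hu, mul_comm]
          exact huu
        have k1 : (y * (b - x ^ 2) / (u ^ 3 * x ^ 2)) ^ 2 /
            (u' ^ 2 * (y ^ 2 / (u ^ 2 * x ^ 2)) ^ 2) = (b - x ^ 2) ^ 2 / (4 * y ^ 2) := by
          rw [hu2]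
          field_simp
          ring
        have k2 : (y * (b - x ^ 2) / (u ^ 3 * x ^ 2)) * (b' - (y ^ 2 / (u ^ 2 * x ^ 2)) ^ 2) /
            (u' ^ 3 * (y ^ 2 / (u ^ 2 * x ^ 2)) ^ 2) =
            (b - x ^ 2) * (((a ^ 2 - 4 * b) * x ^ 4 - y ^ 4)) / (8 * x ^ 2 * y ^ 3) := by
          rw [hu2, h.eb]
          field_simp
          ring
        apply add_self' _ _ hy
        · rw [k1]
          field_simp
          linear_combination (16 * (a + 2 * x)) * e0
        · rw [k1, k2]
          field_simp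
          linear_combination (-32 * x ^ 3 * (3 * x ^ 2 + 2 * a * x + b) +
            (72 * x ^ 2 - 8 * b) * (y ^ 2 + (x ^ 3 + a * x ^ 2 + b * x))) * e0

/-- the kernel -/
lemma ker (h : Dat a b a' b' u) (P : (Cu a b).Point) (hP : isoF h P = 0) :
    P = 0 ∨ P = TT h.hb h.hd := by
  rcases P with _ | ⟨x, y, hxy⟩
  · exact Or.inl rfl
  · by_cases hx : x = 0
    · exact Or.inr (isT_of_x0 h.hb h.hd hxy hx)
    · rw [isoF_some h _ hx] at hP
      exact absurd hP (Affine.Point.some_ne_zero _)

end Pool.Agent.Y676.IS
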