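import Pool.Agent.Y676.IS.One
import Pool.Agent.TH841.NO.Fin
import Pool.Agent.TH841.LS.Main6
import Pool.Agent.TH841.LS.Fin

/-!
# Project IS: the count
-/

set_option autoImplicit false
set_option linter.unusedSectionVars false

namespace Pool.Agent.Y676.IS

open Finset WeierstrassCurve

open Pool.Agent.TH841.SH.D

open Pool.Agent.TH841.LS (WI)

open Pool.Agent.TH841.PT (EQ)

open Pool.Agent.TH841.NO (SQ fo)

/-- both bounds for the 2-primary part -/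
def Ok (δ : ℝ) (Z : ℕ) (p : ℤ × ℤ) : Prop :=
  (fo (-(p.1 + p.2)) (p.1 * p.2) : ℝ) ≤ (3 / 2 + δ) * Real.log (Real.log Z) ∧
    ∃ k : ℕ, (3 / 2 - δ) * Real.log (Real.log Z) ≤ k ∧
      ∃ φ : (Fin k → ZMod 2) →+ Sha (WI p.1 p.2), Function.Injective φ

/-- the shifted pair -/
def bx (i : Fin 3) (Y : ℕ) (t : ℕ × ℕ) : ℕ × ℕ :=
  ![t, (Y + 1 - t.1, t.2 + (Y + 1) - t.1), (Y + 1 - t.2, t.1 + (Y + 1) - t.2)] i

/-- the shift -/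
def N0 (i : Fin 3) (Y : ℕ) : ℤ := ![0, -((Y : ℤ) + 1), -((Y : ℤ) + 1)] i

lemma bx_tri (i : Fin 3) {Y : ℕ} {t : ℕ × ℕ} (h1 : t.1 ≤ Y) (h2 : t.2 ≤ Y) :
    N0 i Y + ((bx i Y t).1 : ℤ) = (tri i t.1 t.2).1 ∧
      N0 i Y + ((bx i Y t).2 : ℤ) = (tri i t.1 t.2).2 := by
  fin_cases i
  · constructor
    · change (0 : ℤ) + (t.1 : ℤ) = t.1
      ring
    · change (0 : ℤ) + (t.2 : ℤ) = t.2
      ring
  · constructor
    · change -((Y : ℤ) + 1) + ((Y + 1 - t.1 : ℕ) : ℤ) = -t.1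
      omega
    · change -((Y : ℤ) + 1) + ((t.2 + (Y + 1) - t.1 : ℕ) : ℤ) = t.2 - t.1
      omega
  · constructor
    · change -((Y : ℤ) + 1) + ((Y + 1 - t.2 : ℕ) : ℤ) = -t.2
      omega
    · change -((Y : ℤ) + 1) + ((t.1 + (Y + 1) - t.2 : ℕ) : ℤ) = t.1 - t.2
      omega

lemma bx_mem (i : Fin 3) {Y : ℕ} {t : ℕ × ℕ} (h : t ∈ Icc 1 Y ×ˢ Icc 1 Y) :
    bx i Y t ∈ Icc 1 (2 * Y) ×ˢ Icc 1 (2 * Y) := by
  rw [mem_product, mem_Icc, mem_Icc] at h ⊢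
  fin_cases i
  · change (1 ≤ t.1 ∧ t.1 ≤ 2 * Y) ∧ (1 ≤ t.2 ∧ t.2 ≤ 2 * Y)
    omega
  · change (1 ≤ Y + 1 - t.1 ∧ Y + 1 - t.1 ≤ 2 * Y) ∧ (1 ≤ t.2 + (Y + 1) - t.1 ∧
      t.2 + (Y + 1) - t.1 ≤ 2 * Y)
    omega
  · change (1 ≤ Y + 1 - t.2 ∧ Y + 1 - t.2 ≤ 2 * Y) ∧ (1 ≤ t.1 + (Y + 1) - t.2 ∧
      t.1 + (Y + 1) - t.2 ≤ 2 * Y)
    omega

lemma bx_inj (i : Fin 3) {Y : ℕ} {t t' : ℕ × ℕ} (h : t ∈ Icc 1 Y ×ˢ Icc 1 Y)
    (h' : t' ∈ Icc 1 Y ×ˢ Icc 1 Y) (he : bx i Y t = bx i Y t') : t = t' := by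
  rw [mem_product, mem_Icc, mem_Icc] at h h'
  fin_cases i
  · exact he
  · have e1 : Y + 1 - t.1 = Y + 1 - t'.1 := congrArg Prod.fst he
    have e2 : t.2 + (Y + 1) - t.1 = t'.2 + (Y + 1) - t'.1 := congrArg Prod.snd he
    exact Prod.ext (by omega) (by omega)
  · have e1 : Y + 1 - t.2 = Y + 1 - t'.2 := congrArg Prod.fst he
    have e2 : t.1 + (Y + 1) - t.2 = t'.1 + (Y + 1) - t'.2 := congrArg Prod.snd he
    exact Prod.ext (by omega) (by omega)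

lemma tri_cop (i : Fin 3) {a b : ℤ} (h : IsCoprime a b) :
    IsCoprime (tri i a b).1 (tri i a b).2 := by
  fin_cases i
  · exact h
  · change IsCoprime (-a) (b - a)
    rw [IsCoprime.neg_left_iff]
    have e : b - a = b + a * (-1) := by ring
    rw [e]
    exact h.add_mul_left_right (-1)
  · change IsCoprime (-b) (a - b)
    rw [IsCoprime.neg_left_iff]
    have e : a - b = a + b * (-1) := by ring
    rw [e]
    exact h.symm.add_mul_left_right (-1)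

lemma tri_mul (i : Fin 3) (D a b : ℤ) : tri i (D * a) (D * b) =
    (D * (tri i a b).1, D * (tri i a b).2) := by
  fin_cases i
  · rfl
  · change (-(D * a), D * b - D * a) = (D * -a, D * (b - a))
    rw [Prod.mk.injEq]
    constructor <;> ring
  · change (-(D * b), D * a - D * b) = (D * -b, D * (a - b))
    rw [Prod.mk.injEq]
    constructor <;> ring

open Classical in
/-- almost all pairs -/
theorem almost1 (D : ℤ) (hD : D ≠ 0) (i : Fin 3) (δ ε : ℝ) (hδ : 0 < δ) (hε : 0 < ε) :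
    ∃ Y0 : ℕ, ∀ Y : ℕ, Y0 ≤ Y →
      (((Icc 1 Y ×ˢ Icc 1 Y).filter (fun t : ℕ × ℕ => IsCoprime (t.1 : ℤ) (t.2 : ℤ) ∧
        ¬ Ok δ (2 * Y) (tri i (D * t.1) (D * t.2)))).card : ℝ) ≤ ε * Y ^ 2 := by
  have havg := Pool.Agent.W307.FK.avgn_of Pool.Agent.W307.FK.expf
  obtain ⟨R1, X1, g1⟩ := Pool.Agent.TH841.LS.large6 Pool.Agent.TH841.LS.CNT2Xf.cnt2x havg D hD δ
    (ε / 8) 1 hδ (by positivity)
  obtain ⟨R2, X2, g2⟩ := Pool.Agent.TH841.NO.norder2 Pool.Agent.TH841.NO.QULf.qul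
    Pool.Agent.TH841.NO.QUMf.qum Pool.Agent.TH841.NO.LWAf.lwa Pool.Agent.TH841.NO.LWBf.lwb
    Pool.Agent.TH841.NO.LWBf.lwc Pool.Agent.TH841.NO.PRf.pra Pool.Agent.TH841.NO.PRf.prb
    Pool.Agent.TH841.NO.LIN2f.lin2 Pool.Agent.TH841.LS.CNT2Xf.cnt2x
    Pool.Agent.TH841.NO.CNTU2f.cntu2 havg D hD δ (ε / 8) 1 hδ (by positivity)
  refine ⟨X1 + X2 + 1, fun Y hY => ?_⟩
  have hN : (N0 i Y).natAbs ≤ (2 * Y) ^ 1 := by
    rw [pow_one]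
    fin_cases i
    · change (0 : ℤ).natAbs ≤ 2 * Y
      simp
    · change (-((Y : ℤ) + 1)).natAbs ≤ 2 * Y
      omega
    · change (-((Y : ℤ) + 1)).natAbs ≤ 2 * Y
      omega
  have b1 := g1 (N0 i Y) (N0 i Y) (2 * Y) (by omega) hN hN
  have b2 := g2 (N0 i Y) (N0 i Y) (2 * Y) (by omega) hN hN
  set S1 := (Icc 1 (2 * Y) ×ˢ Icc 1 (2 * Y)).filter (fun t : ℕ × ℕ =>
        IsCoprime (N0 i Y + (t.1 : ℤ)) (N0 i Y + (t.2 : ℤ)) ∧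
        ¬ ∀ A B : ℤ, A = D * (N0 i Y + (t.1 : ℤ)) → B = D * (N0 i Y + (t.2 : ℤ)) →
        A ≠ 0 ∧ B ≠ 0 ∧ A ≠ B ∧
        (∀ j : ℕ, Finite (ShaTor (EQ A B) (2 ^ j))) ∧
        (∀ j : ℕ, 1 ≤ j → (2 : ℝ) ^ rk (EQ A B) *
          (Nat.card (ShaTor (EQ A B) (2 ^ j)) : ℝ) ^ ((1 : ℝ) / j) ≤ 2 ^ (R1 + 1)) ∧
        ∃ k : ℕ, (3 / 2 - δ) * Real.log (Real.log (2 * Y : ℕ)) ≤ k ∧
        ∃ φ : (Fin k → ZMod 2) →+ Sha (WI A B), Function.Injective φ) with hS1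
  set S2 := (Icc 1 (2 * Y) ×ˢ Icc 1 (2 * Y)).filter (fun t : ℕ × ℕ =>
        IsCoprime (N0 i Y + (t.1 : ℤ)) (N0 i Y + (t.2 : ℤ)) ∧
        ¬ ∀ A B : ℤ, A = D * (N0 i Y + (t.1 : ℤ)) → B = D * (N0 i Y + (t.2 : ℤ)) →
        A ≠ 0 ∧ B ≠ 0 ∧ A ≠ B ∧
        (3 / 2 - δ) * Real.log (Real.log (2 * Y : ℕ)) ≤ fo (-(A + B)) (A * B) ∧
        (fo (-(A + B)) (A * B) : ℝ) ≤ (3 / 2 + δ) * Real.log (Real.log (2 * Y : ℕ)) ∧
        fo (2 * (A + B)) ((A - B) ^ 2) ≤ R2 ∧ rk (EQ A B) ≤ R2) with hS2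
  set S := (Icc 1 Y ×ˢ Icc 1 Y).filter (fun t : ℕ × ℕ => IsCoprime (t.1 : ℤ) (t.2 : ℤ) ∧
        ¬ Ok δ (2 * Y) (tri i (D * t.1) (D * t.2))) with hS
  have hsub : S.image (bx i Y) ⊆ S1 ∪ S2 := by
    intro t' ht'
    obtain ⟨t, ht, rfl⟩ := mem_image.1 ht'
    rw [hS, mem_filter] at ht
    obtain ⟨ht1, ht2, ht3⟩ := ht
    have hm := bx_mem i ht1
    have ht1' := ht1
    rw [mem_product, mem_Icc, mem_Icc] at ht1'
    obtain ⟨e1, e2⟩ := bx_tri i ht1'.1.2 ht1'.2.2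
    have hc := tri_cop i ht2
    by_contra hcon
    rw [mem_union, not_or, hS1, hS2, mem_filter, mem_filter, e1, e2] at hcon
    obtain ⟨c1, c2⟩ := hcon
    apply ht3
    have d1 := not_not.1 (fun h => c1 ⟨hm, hc, h⟩)
    have d2 := not_not.1 (fun h => c2 ⟨hm, hc, h⟩)
    obtain ⟨-, -, -, -, -, k, k1, k2⟩ := d1 _ _ rfl rfl
    obtain ⟨-, -, -, -, l2, -, -⟩ := d2 _ _ rfl rfl
    rw [tri_mul]
    exact ⟨l2, k, k1, k2⟩
  have hcard : S.card ≤ S1.card + S2.card := by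
    rw [← card_image_of_injOn (s := S) (f := bx i Y) (fun t ht t' ht' he =>
      bx_inj i (mem_filter.1 ht).1 (mem_filter.1 ht').1 he)]
    exact (card_le_card hsub).trans (card_union_le _ _)
  have hcard' : (S.card : ℝ) ≤ S1.card + S2.card := by exact_mod_cast hcard
  push_cast at b1 b2
  nlinarith [b1, b2, hcard']

end Pool.Agent.Y676.IS
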