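import Pool.Agent.Y676.IS.Tr
import Pool.Agent.Y676.ShaG

/-!
# Project IS: the structure of the 2-primary part and the rational points
-/

set_option autoImplicit false
set_option linter.unusedSectionVars false

namespace Pool.Agent.Y676.IS

open WeierstrassCurve

open Pool.Agent.TH841.SH.D

open Pool.Agent.TH841.LS (WI LocI T0 coc)

open Pool.Agent.TH841.PT (EQ isR_EQ)

open Pool.Agent.TH841.NO (SQ fo)

open Pool.Agent.H437R2.Man.MW (crv pt_fg)

/-- the 2-primary part is `(ℤ / 2) ^ k` -/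
theorem struct (hlcb : S_LCB) (hlqu : S_LQU) (hsqf : S_SQF) {A B : ℤ} (h : A ≠ B) (hA : A ≠ 0)
    (hB : B ≠ 0) (hSha : ∀ x : Sha (EQ A B), x + x = 0 → x = 0) :
    ∃ k : ℕ, k ≤ fo (-(A + B)) (A * B) ∧ ∃ φ : (Fin k → ZMod 2) →+ Sha (WI A B),
      Function.Injective φ ∧ (∀ x : Sha (WI A B), x ∈ Set.range φ ↔ ∃ j : ℕ, (2 ^ j) • x = 0) := by
  classical
  have hb : A * B ≠ 0 := mul_ne_zero hA hB
  have hfin := hsqf (-(A + B)) (A * B) hb
  have htwo : ∀ (x : Sha (WI A B)) (j : ℕ), (2 ^ j) • x = 0 → x + x = 0 := by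
    intro x j hx
    obtain ⟨d, -, hd, rfl⟩ := prim hlcb hlqu h hA hB hSha x j hx
    rw [← cls_add]
    have h1 : (⟨coc h d, hd⟩ + ⟨coc h d, hd⟩ : shaCoc (WI A B)) = 0 :=
      Subtype.ext (Pool.Agent.TH841.LS.COCf.coc_two h d)
    rw [h1]
    rfl
  let V : AddSubgroup (Sha (WI A B)) :=
    { carrier := {x | x + x = 0}
      zero_mem' := add_zero 0
      add_mem' := by
        intro x y hx hy
        change x + y + (x + y) = 0
        have hx' : x + x = 0 := hx
        have hy' : y + y = 0 := hy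
        have : x + y + (x + y) = (x + x) + (y + y) := by abel
        rw [this, hx', hy', add_zero]
      neg_mem' := by
        intro x hx
        change -x + -x = 0
        have hx' : x + x = 0 := hx
        rw [← neg_add, hx', neg_zero] }
  have hV : ∀ x, x ∈ V ↔ x + x = 0 := fun x => Iff.rfl
  -- the classes of the cocycles
  let F : SQ (-(A + B)) (A * B) → Sha (WI A B) := fun d =>
    if hd : coc h d.1 ∈ shaCoc (WI A B) then cls (WI A B) ⟨coc h d.1, hd⟩ else 0
  have hsub : (V : Set (Sha (WI A B))) ⊆ Set.range F := by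
    intro x hx
    obtain ⟨d, hd, hd', rfl⟩ := prim hlcb hlqu h hA hB hSha x 1 (by
      rw [pow_one, two_nsmul]
      exact hx)
    refine ⟨⟨d, hd⟩, ?_⟩
    simp only [F]
    rw [dif_pos hd']
  have hfS : Finite (SQ (-(A + B)) (A * B)) := hfin
  have hVfin : (V : Set (Sha (WI A B))).Finite := (Set.finite_range F).subset hsub
  have hVf : Finite V := hVfin
  have hcard : Nat.card V ≤ (SQ (-(A + B)) (A * B)).ncard := by
    have h1 : (V : Set (Sha (WI A B))).ncard ≤ (Set.range F).ncard :=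
      Set.ncard_le_ncard hsub (Set.finite_range F)
    have h2 : (Set.range F).ncard ≤ (SQ (-(A + B)) (A * B)).ncard := by
      rw [← Nat.card_coe_set_eq, ← Nat.card_coe_set_eq]
      exact Finite.card_range_le F
    exact h1.trans h2
  have hmod : ∀ x : V, 2 • x = 0 := fun x => Subtype.ext (by
    rw [two_nsmul]
    exact x.2)
  letI : Module (ZMod 2) V := AddCommGroup.zmodModule hmod
  have : Module.Finite (ZMod 2) V := Module.Finite.of_finite
  refine ⟨Module.finrank (ZMod 2) V, ?_, ?_⟩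
  · have h1 : Nat.card V = 2 ^ Module.finrank (ZMod 2) V := by
      rw [Module.natCard_eq_pow_finrank (K := ZMod 2), Nat.card_zmod]
    rw [h1] at hcard
    unfold fo
    exact Nat.le_log_of_pow_le (by norm_num) hcard
  · let e : (Fin (Module.finrank (ZMod 2) V) → ZMod 2) ≃ₗ[ZMod 2] V :=
      (Module.finBasis (ZMod 2) V).equivFun.symm
    refine ⟨V.subtype.comp e.toLinearMap.toAddMonoidHom, ?_, fun x => ?_⟩
    · exact Subtype.val_injective.comp e.injective
    · constructor
      · rintro ⟨y, rfl⟩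
        refine ⟨1, ?_⟩
        rw [pow_one, two_nsmul]
        exact (e y).2
      · rintro ⟨j, hj⟩
        refine ⟨e.symm ⟨x, htwo x j hj⟩, ?_⟩
        change ((e (e.symm ⟨x, htwo x j hj⟩) : V) : Sha (WI A B)) = x
        rw [LinearEquiv.apply_symm_apply]

/-- comparison with an injective homomorphism -/
lemma le_of_inj {G : Type} [AddCommGroup G] {k k' : ℕ} {φ : (Fin k → ZMod 2) →+ G}
    (hr : ∀ x : G, x ∈ Set.range φ ↔ ∃ j : ℕ, (2 ^ j) • x = 0)
    {φ' : (Fin k' → ZMod 2) →+ G} (hi : Function.Injective φ') : k' ≤ k := by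
  have hsub : Set.range φ' ⊆ Set.range φ := by
    rintro _ ⟨y, rfl⟩
    rw [hr]
    refine ⟨1, ?_⟩
    rw [pow_one, ← map_nsmul]
    have : 2 • y = 0 := by
      funext i
      rw [Pi.smul_apply, Pi.zero_apply, two_nsmul]
      exact CharTwo.add_self_eq_zero _
    rw [this, map_zero]
  have h1 : (Set.range φ').ncard ≤ (Set.range φ).ncard :=
    Set.ncard_le_ncard hsub (Set.finite_range φ)
  have h2 : (Set.range φ').ncard = 2 ^ k' := by
    rw [← Set.image_univ, Set.ncard_image_of_injective _ hi, Set.ncard_univ]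
    simp
  have h3 : (Set.range φ).ncard ≤ 2 ^ k := by
    rw [← Nat.card_coe_set_eq]
    refine (Finite.card_range_le φ).trans ?_
    simp
  exact (Nat.pow_le_pow_iff_right (by norm_num : 1 < 2)).1 (h2 ▸ (h1.trans h3))

/-- finitely many rational points -/
lemma fin_EQ {A B : ℤ} (h : A ≠ B) (hA : A ≠ 0) (hB : B ≠ 0) (hr : rk (EQ A B) = 0) :
    Finite (EQ A B).toAffine.Point := by
  have hW : EQ A B = crv (-((0 : ℤ) : ℚ)) (-(A : ℚ)) (-(B : ℚ)) := by
    apply WeierstrassCurve.ext
    · rfl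
    · show -((A : ℚ) + B) = -((0 : ℤ) : ℚ) + -(A : ℚ) + -(B : ℚ)
      push_cast
      ring
    · rfl
    · show (A : ℚ) * B = -((0 : ℤ) : ℚ) * -(A : ℚ) + -((0 : ℤ) : ℚ) * -(B : ℚ) + -(A : ℚ) * -(B : ℚ)
      push_cast
      ring
    · show (0 : ℚ) = -((0 : ℤ) : ℚ) * -(A : ℚ) * -(B : ℚ)
      push_cast
      ring
  have hfg : AddGroup.FG (EQ A B).toAffine.Point := by
    rw [hW]
    refine pt_fg ?_ ?_ ?_
    · intro h0
      apply hA
      have := neg_injective h0
      exact_mod_cast this.symm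
    · intro h0
      apply hB
      have := neg_injective h0
      exact_mod_cast this.symm
    · intro h0
      apply h
      have := neg_injective h0
      exact_mod_cast this
  have hf : Module.Finite ℤ (EQ A B).toAffine.Point := Module.Finite.iff_addGroup_fg.2 hfg
  have ht : Module.IsTorsion ℤ (EQ A B).toAffine.Point := Module.finrank_eq_zero_iff_isTorsion.1 hr
  exact Module.finite_of_fg_torsion _ ht

lemma bcQ (W : WeierstrassCurve ℚ) : W.baseChange ℚ = W := by
  apply WeierstrassCurve.ext <;> simp [WeierstrassCurve.baseChange]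

lemma fin_WI {A B : ℤ} (h : A ≠ B) (hA : A ≠ 0) (hB : B ≠ 0)
    (hE : Finite (EQ A B).toAffine.Point) : Finite (WI A B).toAffine.Point := by
  obtain ⟨ψ, φ, h1, h2, h3⟩ := exists_NH h hA hB
  have hE' : Finite (Pt (EQ A B) ℚ) := by
    unfold Pt
    rw [bcQ]
    exact hE
  suffices H : Finite (Pt (WI A B) ℚ) by
    unfold Pt at H
    rwa [bcQ] at H
  have hfib : ∀ y, ((ψ.f ℚ) ⁻¹' {y}).Finite := by
    intro y
    by_cases hy : ∃ P0, ψ.f ℚ P0 = y
    · obtain ⟨P0, hP0⟩ := hy
      refine (Set.toFinite ({P0, T0 h ℚ + P0} : Set (Pt (WI A B) ℚ))).subset ?_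
      intro P hP
      have hP' : ψ.f ℚ P = y := hP
      have h4 : ψ.f ℚ (P - P0) = 0 := by rw [map_sub, hP', hP0, sub_self]
      rcases h3 ℚ _ h4 with h5 | h5
      · exact Or.inl (sub_eq_zero.1 h5)
      · right
        rw [Set.mem_singleton_iff, ← h5, sub_add_cancel]
    · convert Set.finite_empty
      rw [Set.eq_empty_iff_forall_notMem]
      intro P hP
      exact hy ⟨P, hP⟩
  have huniv : (Set.univ : Set (Pt (WI A B) ℚ)).Finite := by
    have h4 : (Set.univ : Set (Pt (WI A B) ℚ)) = ⋃ y, (ψ.f ℚ) ⁻¹' {y} := by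
      ext P
      simp
    rw [h4]
    exact Set.finite_iUnion hfib
  exact Set.finite_univ_iff.1 huniv

end Pool.Agent.Y676.IS
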