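import Pool.Agent.Y676.IS.Alg4
import Pool.Agent.Y676.IS.Stm

/-!
# Project IS: the 2-isogeny and its dual
-/

set_option autoImplicit false
set_option linter.unusedSectionVars false

namespace Pool.Agent.Y676.IS

open WeierstrassCurve

open Pool.Agent.TH841.SH.D

open Pool.Agent.TH841.LS (WI LocI T0 coc)

open Pool.Agent.TH841.PT (EQ)

/-- the isogeny between curves equal to `Cu a b`, `Cu a' b'` -/
noncomputable def isoW {F : Type} [Field F] [CharZero F] {W W' : WeierstrassCurve.Affine F}
    {a b a' b' u : F} (hW : W = Cu a b) (hW' : W' = Cu a' b') (h : Dat a b a' b' u) :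
    W.Point → W'.Point := fun P => hW'.symm ▸ isoF h (hW ▸ P)

lemma isoW_zero {F : Type} [Field F] [CharZero F] {W W' : WeierstrassCurve.Affine F}
    {a b a' b' u : F} (hW : W = Cu a b) (hW' : W' = Cu a' b') (h : Dat a b a' b' u) :
    isoW hW hW' h .zero = .zero := by
  subst hW hW'
  rfl

lemma isoW_x0 {F : Type} [Field F] [CharZero F] {W W' : WeierstrassCurve.Affine F}
    {a b a' b' u : F} (hW : W = Cu a b) (hW' : W' = Cu a' b') (h : Dat a b a' b' u)
    {x y : F} (hxy : W.Nonsingular x y) (hx : x = 0) :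
    isoW hW hW' h (.some x y hxy) = .zero := by
  subst hW hW'
  exact isoF_x0 h hxy hx

lemma isoW_some {F : Type} [Field F] [CharZero F] {W W' : WeierstrassCurve.Affine F}
    {a b a' b' u : F} (hW : W = Cu a b) (hW' : W' = Cu a' b') (h : Dat a b a' b' u)
    {x y : F} (hxy : W.Nonsingular x y) (hx : x ≠ 0) :
    ∃ h', isoW hW hW' h (.some x y hxy) = .some (y ^ 2 / (u ^ 2 * x ^ 2))
      (y * (b - x ^ 2) / (u ^ 3 * x ^ 2)) h' := by
  subst hW hW'
  exact ⟨_, isoF_some h hxy hx⟩

lemma isoW_add {F : Type} [Field F] [CharZero F] [DecidableEq F] [IsAlgClosed F]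
    {W W' : WeierstrassCurve.Affine F}
    {a b a' b' u : F} (hW : W = Cu a b) (hW' : W' = Cu a' b') (h : Dat a b a' b' u)
    (P Q : W.Point) : isoW hW hW' h (P + Q) = isoW hW hW' h P + isoW hW hW' h Q := by
  subst hW hW'
  exact add_all h P Q

/-- rational data -/
structure QDat (W W' : WeierstrassCurve ℚ) (a b a' b' u : ℚ) : Prop where
  hW : W = ⟨0, a, 0, b, 0⟩
  hW' : W' = ⟨0, a', 0, b', 0⟩
  dat : Dat a b a' b' u

section

variable {W W' : WeierstrassCurve ℚ} {a b a' b' u : ℚ} (L : Type) [Field L] [Algebra ℚ L]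

lemma bc (a b : ℚ) : ((⟨0, a, 0, b, 0⟩ : WeierstrassCurve ℚ).baseChange L).toAffine =
    Cu (algebraMap ℚ L a) (algebraMap ℚ L b) := by
  apply WeierstrassCurve.ext
  · exact map_zero (algebraMap ℚ L)
  · rfl
  · exact map_zero (algebraMap ℚ L)
  · rfl
  · exact map_zero (algebraMap ℚ L)

lemma QDat.base (h : QDat W W' a b a' b' u) [CharZero L] :
    Dat (algebraMap ℚ L a) (algebraMap ℚ L b) (algebraMap ℚ L a') (algebraMap ℚ L b')
      (algebraMap ℚ L u) where
  hb := (map_ne_zero _).2 h.dat.hb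
  hb' := (map_ne_zero _).2 h.dat.hb'
  hu := (map_ne_zero _).2 h.dat.hu
  e1 := by
    have := congrArg (algebraMap ℚ L) h.dat.e1
    simpa using this
  e2 := by
    have := congrArg (algebraMap ℚ L) h.dat.e2
    simpa using this

lemma QDat.w (h : QDat W W' a b a' b' u) :
    (W.baseChange L).toAffine = Cu (algebraMap ℚ L a) (algebraMap ℚ L b) := by
  rw [h.hW]
  exact bc L a b

lemma QDat.w' (h : QDat W W' a b a' b' u) :
    (W'.baseChange L).toAffine = Cu (algebraMap ℚ L a') (algebraMap ℚ L b') := by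
  rw [h.hW']
  exact bc L a' b'

/-- the isogeny over `L` -/
noncomputable def isoL (h : QDat W W' a b a' b' u) [CharZero L] : Pt W L → Pt W' L :=
  isoW (h.w L) (h.w' L) (h.base L)

lemma act_some {L L' : Type} [Field L] [Field L'] [Algebra ℚ L] [Algebra ℚ L']
    (W : WeierstrassCurve ℚ) (φ : L →ₐ[ℚ] L') {x y : L}
    (h : (W.baseChange L).toAffine.Nonsingular x y) :
    act W φ (.some x y h) =
      .some (φ x) (φ y) ((Affine.baseChange_nonsingular W φ.injective ..).mpr h) := rfl

lemma act_zero' {L L' : Type} [Field L] [Field L'] [Algebra ℚ L] [Algebra ℚ L']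
    (W : WeierstrassCurve ℚ) (φ : L →ₐ[ℚ] L') : act W φ Affine.Point.zero = Affine.Point.zero := rfl

lemma act_inj {L L' : Type} [Field L] [Field L'] [Algebra ℚ L] [Algebra ℚ L']
    (W : WeierstrassCurve ℚ) (φ : L →ₐ[ℚ] L') : Function.Injective (act W φ) :=
  @Affine.Point.map_injective ℚ ℚ L L' _ _ _ _ W (Classical.decEq L) (Classical.decEq L') _ _ _ _
    _ _ _ φ

lemma isoL_act {L' : Type} [Field L'] [Algebra ℚ L'] [CharZero L] [CharZero L']
    (h : QDat W W' a b a' b' u) (f : L →ₐ[ℚ] L') (P : Pt W L) :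
    act W' f (isoL L h P) = isoL L' h (act W f P) := by
  rcases P with _ | ⟨x, y, hxy⟩
  · have e1 : isoL L h .zero = Affine.Point.zero := isoW_zero _ _ _
    have e2 : isoL L' h .zero = Affine.Point.zero := isoW_zero _ _ _
    rw [e1]
    change act W' f Affine.Point.zero = isoL L' h (act W f Affine.Point.zero)
    rw [act_zero', act_zero', e2]
  · by_cases hx : x = 0
    · have e1 : isoL L h (.some x y hxy) = Affine.Point.zero := isoW_x0 _ _ _ _ hx
      rw [e1, act_some]
      have e2 : isoL L' h (.some (f x) (f y)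
        ((Affine.baseChange_nonsingular W f.injective ..).mpr hxy)) = Affine.Point.zero :=
        isoW_x0 _ _ _ _ (by rw [hx, map_zero])
      rw [e2]
      rfl
    · obtain ⟨g1, e1⟩ := isoW_some (h.w L) (h.w' L) (h.base L) hxy hx
      have e1' : isoL L h (.some x y hxy) = _ := e1
      rw [e1', act_some, act_some]
      obtain ⟨g2, e2⟩ := isoW_some (h.w L') (h.w' L') (h.base L')
        ((Affine.baseChange_nonsingular W f.injective ..).mpr hxy)
        (by rwa [Ne, map_eq_zero])
      have e2' : isoL L' h (.some (f x) (f y)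
        ((Affine.baseChange_nonsingular W f.injective ..).mpr hxy)) = _ := e2
      rw [e2']
      apply some_congr
      · simp [map_div₀]
      · simp [map_div₀]

lemma isoL_add [CharZero L] (h : QDat W W' a b a' b' u) (P Q : Pt W L) :
    isoL L h (P + Q) = isoL L h P + isoL L h Q := by
  let f : L →ₐ[ℚ] AlgebraicClosure L := IsScalarTower.toAlgHom ℚ L (AlgebraicClosure L)
  apply act_inj W' f
  have h1 : ∀ P Q : Pt W (AlgebraicClosure L), isoL (AlgebraicClosure L) h (P + Q) =
      isoL (AlgebraicClosure L) h P + isoL (AlgebraicClosure L) h Q := fun P Q =>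
    @isoW_add (AlgebraicClosure L) _ _ (Classical.decEq _) _ _ _ _ _ _ _ _ (h.w _) (h.w' _)
      (h.base _) P Q
  rw [map_add, isoL_act, isoL_act, isoL_act, map_add, h1]

/-- the isogeny as a homomorphism -/
noncomputable def isoH (h : QDat W W' a b a' b' u) : Pt W L →+ Pt W' L :=
  have : CharZero L := algebraRat.charZero L
  AddMonoidHom.mk' (isoL L h) (isoL_add L h)

lemma isoH_act {L' : Type} [Field L'] [Algebra ℚ L'] (h : QDat W W' a b a' b' u) (f : L →ₐ[ℚ] L')
    (P : Pt W L) : act W' f (isoH L h P) = isoH L' h (act W f P) := by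
  have : CharZero L := algebraRat.charZero L
  have : CharZero L' := algebraRat.charZero L'
  exact isoL_act L h f P

lemma isoW_dbl {F : Type} [Field F] [CharZero F] [DecidableEq F] {W W' : WeierstrassCurve.Affine F}
    {a b a' b' u u' : F} (hW : W = Cu a b) (hW' : W' = Cu a' b') (h : Dat a b a' b' u)
    (h' : Dat a' b' a b u') (huu : u * u' = 2) (P : W.Point) :
    isoW hW' hW h' (isoW hW hW' h P) = P + P := by
  subst hW hW'
  exact dbl h h' huu P

lemma isoH_dbl {u' : ℚ} (h : QDat W W' a b a' b' u) (h' : QDat W' W a' b' a b u')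
    (huu : u * u' = 2) (P : Pt W L) : isoH L h' (isoH L h P) = P + P := by
  have : CharZero L := algebraRat.charZero L
  refine @isoW_dbl L _ _ (Classical.decEq L) _ _ _ _ _ _ _ _ (h.w L) (h.w' L) (h.base L)
    (h'.base L) ?_ P
  rw [← map_mul, huu, map_ofNat]

lemma isoW_ker {F : Type} [Field F] [CharZero F] {W W' : WeierstrassCurve.Affine F}
    {a b a' b' u : F} (hW : W = Cu a b) (hW' : W' = Cu a' b') (h : Dat a b a' b' u)
    (P : W.Point) (hP : isoW hW hW' h P = .zero) : P = .zero ∨ ∃ h0, P = .some 0 0 h0 := by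
  classical
  subst hW hW'
  rcases ker h P hP with h1 | h1
  · exact Or.inl h1
  · exact Or.inr ⟨_, h1⟩

end

lemma datPsi {A B : ℤ} (h : A ≠ B) (hA : A ≠ 0) (hB : B ≠ 0) :
    QDat (WI A B) (EQ A B) (2 * ((A : ℚ) + B)) (((A : ℚ) - B) ^ 2) (-((A : ℚ) + B)) ((A : ℚ) * B)
      2 where
  hW := rfl
  hW' := rfl
  dat :=
    { hb := pow_ne_zero 2 (sub_ne_zero.2 (by exact_mod_cast h))
      hb' := mul_ne_zero (by exact_mod_cast hA) (by exact_mod_cast hB)
      hu := two_ne_zero
      e1 := by ring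
      e2 := by ring }

lemma datPhi {A B : ℤ} (h : A ≠ B) (hA : A ≠ 0) (hB : B ≠ 0) :
    QDat (EQ A B) (WI A B) (-((A : ℚ) + B)) ((A : ℚ) * B) (2 * ((A : ℚ) + B)) (((A : ℚ) - B) ^ 2)
      1 where
  hW := rfl
  hW' := rfl
  dat :=
    { hb' := pow_ne_zero 2 (sub_ne_zero.2 (by exact_mod_cast h))
      hb := mul_ne_zero (by exact_mod_cast hA) (by exact_mod_cast hB)
      hu := one_ne_zero
      e1 := by ring
      e2 := by ring }

theorem iso : S_ISO := by
  intro A B h hA hB
  refine ⟨fun L _ _ => isoH L (datPsi h hA hB), fun L _ _ => isoH L (datPhi h hA hB),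
    fun F L _ _ _ _ f P => isoH_act F _ f P, fun F L _ _ _ _ f P => isoH_act F _ f P,
    fun L _ _ P => isoH_dbl L _ _ (by norm_num) P, fun L _ _ P => isoH_dbl L _ _ (by norm_num) P,
    fun L _ _ P hP => ?_⟩
  have : CharZero L := algebraRat.charZero L
  rcases isoW_ker ((datPsi h hA hB).w L) ((datPsi h hA hB).w' L) ((datPsi h hA hB).base L) P hP with
    h1 | ⟨h0, h1⟩
  · exact Or.inl h1
  · exact Or.inr h1

end Pool.Agent.Y676.IS
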