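import Pool.Agent.Y676.IS.Cnt
import Pool.Agent.Y497.IS.LCB
import Pool.Agent.Y500.IS.LQU
import Pool.Agent.Y667.RZ.Fin

/-!
# Project IS: a positive proportion of the pairs
-/

set_option autoImplicit false
set_option linter.unusedSectionVars false

namespace Pool.Agent.Y676.IS

open Finset WeierstrassCurve

open Pool.Agent.TH841.SH.D

open Pool.Agent.TH841.LS (WI big_loglog)

open Pool.Agent.TH841.PT (EQ)

open Pool.Agent.TH841.NO (SQ fo)

open Pool.Agent.W307.SE (Sel)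

/-- finitely many rational points, and the 2-primary part of the Tate-Shafarevich group is
`(ℤ / 2) ^ k`, `k` close to `(3 / 2) log log X` -/
def Big (δ : ℝ) (X : ℕ) (p : ℤ × ℤ) : Prop :=
  Finite (WI p.1 p.2).toAffine.Point ∧ ∃ k : ℕ,
    |(k : ℝ) - 3 / 2 * Real.log (Real.log X)| ≤ δ * Real.log (Real.log X) ∧
    ∃ φ : (Fin k → ZMod 2) →+ Sha (WI p.1 p.2), Function.Injective φ ∧
      ∀ x, x ∈ Set.range φ ↔ ∃ j : ℕ, (2 ^ j) • x = 0

/-- the good pairs -/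
def GoodI (δ : ℝ) (X : ℕ) (t : ℕ × ℕ) : Prop :=
  t.1 ≠ t.2 ∧ Finite (EQ t.1 t.2).toAffine.Point ∧
    (∀ j : ℕ, Subsingleton (ShaTor (EQ t.1 t.2) (2 ^ j))) ∧
    ∀ i : Fin 3, Big δ X (tri i t.1 t.2)

/-- from the orders at `Z` to the orders at `X` -/
lemma loglog_cmp (δ : ℝ) (hδ : 0 < δ) : ∃ M : ℕ, ∀ X Y : ℕ, M ≤ X → X ≤ 17 * (Y + 1) → 17 * Y ≤ X →
    ∀ k : ℕ, (3 / 2 - min δ 1 / 2) * Real.log (Real.log (2 * Y : ℕ)) ≤ k →
      (k : ℝ) ≤ (3 / 2 + min δ 1 / 2) * Real.log (Real.log (2 * Y : ℕ)) →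
      |(k : ℝ) - 3 / 2 * Real.log (Real.log X)| ≤ δ * Real.log (Real.log X) := by
  have hm : 0 < min δ 1 := lt_min hδ one_pos
  have hm1 : min δ 1 ≤ 1 := min_le_right _ _
  have hmδ : min δ 1 ≤ δ := min_le_left _ _
  obtain ⟨M, hM⟩ := big_loglog (min δ 1 / 2) (3 / 2) (by positivity)
  refine ⟨M + 17 * 100, fun X Y hX h1 h2 k k1 k2 => ?_⟩
  have h3 := hM X (by omega)
  have hY : 98 ≤ Y := by omega
  have hYr : (98 : ℝ) ≤ Y := by exact_mod_cast hY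
  have hZ : (17 : ℝ) ≤ ((2 * Y : ℕ) : ℝ) := by
    push_cast
    linarith
  have hXr : (X : ℝ) ≤ 17 * ((2 * Y : ℕ) : ℝ) := by
    have : X ≤ 17 * (2 * Y) := by omega
    exact_mod_cast this
  have hZX : ((2 * Y : ℕ) : ℝ) ≤ X := by
    have : 2 * Y ≤ X := by omega
    exact_mod_cast this
  set Z : ℝ := ((2 * Y : ℕ) : ℝ) with hZdef
  have hX0 : (0 : ℝ) < X := by linarith
  have l1 : 1 < Real.log Z := by
    have h4 : Real.exp 1 < Z := lt_of_lt_of_le (Real.exp_one_lt_d9.trans (by norm_num)) hZ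
    have := Real.log_lt_log (Real.exp_pos 1) h4
    rwa [Real.log_exp] at this
  have l2 : Real.log Z ≤ Real.log X := Real.log_le_log (by linarith) hZX
  have l3 : Real.log X ≤ 2 * Real.log Z := by
    have h4 : Real.log X ≤ Real.log (17 * Z) := Real.log_le_log hX0 hXr
    rw [Real.log_mul (by norm_num) (by linarith)] at h4
    have h5 : Real.log 17 ≤ Real.log Z := Real.log_le_log (by norm_num) hZ
    linarith
  have m1 : Real.log (Real.log Z) ≤ Real.log (Real.log X) := Real.log_le_log (by linarith) l2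
  have m2 : Real.log (Real.log X) ≤ Real.log (Real.log Z) + 1 := by
    have h4 : Real.log (Real.log X) ≤ Real.log (2 * Real.log Z) :=
      Real.log_le_log (by linarith) l3
    rw [Real.log_mul (by norm_num) (by linarith)] at h4
    have h5 : Real.log 2 < 1 := by
      have := Real.log_two_lt_d9
      linarith
    linarith
  have m0 : 0 < Real.log (Real.log Z) := Real.log_pos l1
  have hLX : 0 < Real.log (Real.log X) := lt_of_lt_of_le m0 m1
  rw [abs_le]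
  constructor
  · nlinarith
  · nlinarith

lemma cop_eq {a b : ℕ × ℕ} {D D' : ℕ} (ha : Nat.Coprime a.1 a.2) (hb : Nat.Coprime b.1 b.2)
    (hD : 0 < D) (h1 : D * a.1 = D' * b.1) (h2 : D * a.2 = D' * b.2) : a = b := by
  have h3 : Nat.gcd (D * a.1) (D * a.2) = Nat.gcd (D' * b.1) (D' * b.2) := by rw [h1, h2]
  rw [Nat.gcd_mul_left, Nat.gcd_mul_left, ha, hb, mul_one, mul_one] at h3
  subst h3
  exact Prod.ext (Nat.eq_of_mul_eq_mul_left hD h1) (Nat.eq_of_mul_eq_mul_left hD h2)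

open Classical in
theorem mainI : ∃ c : ℝ, 0 < c ∧ ∀ δ : ℝ, 0 < δ → ∃ X0 : ℕ, ∀ X : ℕ, X0 ≤ X →
    c * (X : ℝ) ^ 2 ≤ (((Icc 1 X ×ˢ Icc 1 X).filter (GoodI δ X)).card : ℝ) := by
  obtain ⟨c, hc, X1, hX1⟩ := Pool.Agent.Y667.RZ.mainz
  refine ⟨c / 2 / 34 ^ 2, by positivity, fun δ hδ => ?_⟩
  have hm : 0 < min δ 1 := lt_min hδ one_pos
  obtain ⟨M, hM⟩ := loglog_cmp δ hδ
  have ha : ∀ (i : Fin 3) (D : Fin 2), ∃ Y0 : ℕ, ∀ Y : ℕ, Y0 ≤ Y →
      (((Icc 1 Y ×ˢ Icc 1 Y).filter (fun t : ℕ × ℕ => IsCoprime (t.1 : ℤ) (t.2 : ℤ) ∧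
        ¬ Ok (min δ 1 / 2) (2 * Y) (tri i ((![1, 17] D : ℤ) * t.1) ((![1, 17] D : ℤ) * t.2)))).card :
          ℝ) ≤ c / 12 * Y ^ 2 := fun i D =>
    almost1 (![1, 17] D) (by fin_cases D <;> norm_num) i (min δ 1 / 2) (c / 12) (by positivity)
      (by positivity)
  choose Y0 hY0 using ha
  refine ⟨M + 17 * (X1 + 1 + ∑ i, ∑ D, Y0 i D) + 17 * 100, fun X hX => ?_⟩
  obtain ⟨Y, hY⟩ : ∃ Y, Y = X / 17 := ⟨_, rfl⟩
  have hY1 : 17 * Y ≤ X := by omega
  have hY2 : X ≤ 17 * (Y + 1) := by omega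
  have hYX : X1 + 1 + ∑ i, ∑ D, Y0 i D ≤ Y := by omega
  have hYi : ∀ i D, Y0 i D ≤ Y := by
    intro i D
    have h1 : Y0 i D ≤ ∑ D, Y0 i D := single_le_sum (f := fun D => Y0 i D)
      (fun _ _ => Nat.zero_le _) (mem_univ D)
    have h2 : ∑ D, Y0 i D ≤ ∑ i, ∑ D, Y0 i D := single_le_sum (f := fun i => ∑ D, Y0 i D)
      (fun _ _ => Nat.zero_le _) (mem_univ i)
    omega
  set S := (Icc 1 Y ×ˢ Icc 1 Y).filter (Pool.Agent.Y667.RZ.GoodZ Y) with hS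
  set Bd : Fin 3 → Fin 2 → Finset (ℕ × ℕ) := fun i D =>
    (Icc 1 Y ×ˢ Icc 1 Y).filter (fun t : ℕ × ℕ => IsCoprime (t.1 : ℤ) (t.2 : ℤ) ∧
        ¬ Ok (min δ 1 / 2) (2 * Y) (tri i ((![1, 17] D : ℤ) * t.1) ((![1, 17] D : ℤ) * t.2)))
    with hBd
  set BB : Finset (ℕ × ℕ) := univ.biUnion (fun i => univ.biUnion (fun D => Bd i D)) with hBB
  have hS0 : c * (Y : ℝ) ^ 2 ≤ S.card := hX1 Y (by omega)
  have hBc : (BB.card : ℝ) ≤ c / 2 * Y ^ 2 := by
    have h1 : (BB.card : ℝ) ≤ ∑ i : Fin 3, ∑ D : Fin 2, ((Bd i D).card : ℝ) := by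
      have h2 : BB.card ≤ ∑ i : Fin 3, ∑ D : Fin 2, (Bd i D).card :=
        card_biUnion_le.trans (sum_le_sum fun i _ => card_biUnion_le)
      exact_mod_cast h2
    refine h1.trans ?_
    have h3 : ∑ i : Fin 3, ∑ D : Fin 2, ((Bd i D).card : ℝ) ≤
        ∑ i : Fin 3, ∑ D : Fin 2, (c / 12 * Y ^ 2 : ℝ) :=
      sum_le_sum fun i _ => sum_le_sum fun D _ => hY0 i D Y (hYi i D)
    refine h3.trans (le_of_eq ?_)
    simp only [sum_const, card_univ, Fintype.card_fin, nsmul_eq_mul]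
    push_cast
    ring
  -- the good pairs outside of the bad sets
  have hSB : c / 2 * (Y : ℝ) ^ 2 ≤ ((S \ BB).card : ℝ) := by
    have h1 : S.card ≤ (S \ BB).card + BB.card := by
      have := le_card_sdiff BB S
      omega
    have h2 : (S.card : ℝ) ≤ (S \ BB).card + BB.card := by exact_mod_cast h1
    linarith
  let Dt : ℕ × ℕ → Fin 2 := fun t => if (Sel (t.1 : ℤ) (t.2 : ℤ)).ncard ≤ 4 then 0 else 1
  let g : ℕ × ℕ → ℕ × ℕ := fun t => ((![1, 17] (Dt t) : ℕ) * t.1, (![1, 17] (Dt t) : ℕ) * t.2)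
  have hDpos : ∀ D : Fin 2, 0 < (![1, 17] D : ℕ) ∧ (![1, 17] D : ℕ) ≤ 17 := by
    intro D
    fin_cases D
    · exact ⟨by norm_num, by norm_num⟩
    · exact ⟨by norm_num, by norm_num⟩
  have hcop : ∀ t ∈ S, Nat.Coprime t.1 t.2 := fun t ht =>
    (mem_filter.1 ht).2.2.2.2.2.2.2.2.2.1
  have hg : Set.InjOn g ((S \ BB : Finset (ℕ × ℕ)) : Set (ℕ × ℕ)) := by
    intro t ht t' ht' he
    have h1 := hcop t (mem_sdiff.1 (mem_coe.1 ht)).1
    have h2 := hcop t' (mem_sdiff.1 (mem_coe.1 ht')).1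
    exact cop_eq h1 h2 (hDpos (Dt t)).1 (congrArg Prod.fst he) (congrArg Prod.snd he)
  have hmaps : (S \ BB).image g ⊆ (Icc 1 X ×ˢ Icc 1 X).filter (GoodI δ X) := by
    intro u hu
    obtain ⟨t, ht, rfl⟩ := mem_image.1 hu
    obtain ⟨htS, htB⟩ := mem_sdiff.1 ht
    have htS' := mem_filter.1 htS
    obtain ⟨hbox, g1, g2, g3, g4, g5, g6, g7, g8, g9, g10⟩ := htS'
    rw [mem_product, mem_Icc, mem_Icc] at hbox
    have hne : t.1 ≠ t.2 := by omega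
    obtain ⟨dp, dl⟩ := hDpos (Dt t)
    have hZc : ((![1, 17] (Dt t) : ℕ) : ℤ) = (![1, 17] (Dt t) : ℤ) := by
      generalize Dt t = D
      fin_cases D <;> rfl
    have hsel : (Sel ((![1, 17] (Dt t) : ℤ) * t.1) ((![1, 17] (Dt t) : ℤ) * t.2)).ncard ≤ 4 := by
      by_cases h4 : (Sel (t.1 : ℤ) (t.2 : ℤ)).ncard ≤ 4
      · have e : Dt t = 0 := if_pos h4
        rw [e]
        simpa using h4
      · have e : Dt t = 1 := if_neg h4
        rw [e]
        rcases g10 with g10 | g10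
        · exact absurd g10.2 h4
        · exact g10.2
    have hnB : ∀ i : Fin 3, Ok (min δ 1 / 2) (2 * Y)
        (tri i ((![1, 17] (Dt t) : ℤ) * t.1) ((![1, 17] (Dt t) : ℤ) * t.2)) := by
      intro i
      by_contra hcon
      apply htB
      rw [hBB, mem_biUnion]
      refine ⟨i, mem_univ _, ?_⟩
      rw [mem_biUnion]
      refine ⟨Dt t, mem_univ _, ?_⟩
      rw [hBd, mem_filter, mem_product, mem_Icc, mem_Icc]
      exact ⟨hbox, Nat.isCoprime_iff_coprime.2 g9, hcon⟩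
    have hA : ((![1, 17] (Dt t) : ℤ) * t.1) ≠ 0 := by
      rw [← hZc]
      have : 0 < (![1, 17] (Dt t) : ℕ) * t.1 := Nat.mul_pos dp (by omega)
      exact_mod_cast this.ne'
    have hB : ((![1, 17] (Dt t) : ℤ) * t.2) ≠ 0 := by
      rw [← hZc]
      have : 0 < (![1, 17] (Dt t) : ℕ) * t.2 := Nat.mul_pos dp (by omega)
      exact_mod_cast this.ne'
    have hAB : ((![1, 17] (Dt t) : ℤ) * t.1) ≠ ((![1, 17] (Dt t) : ℤ) * t.2) := by
      rw [← hZc]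
      intro h0
      apply hne
      have h1 : (![1, 17] (Dt t) : ℕ) * t.1 = (![1, 17] (Dt t) : ℕ) * t.2 := by exact_mod_cast h0
      exact Nat.eq_of_mul_eq_mul_left dp h1
    obtain ⟨o1, o2, o3⟩ := one Pool.Agent.Y497.IS.lcb Pool.Agent.Y500.IS.lqu Pool.Agent.Y500.IS.sqf
      hA hB hAB hsel
    have c1 : (((g t).1 : ℕ) : ℤ) = (![1, 17] (Dt t) : ℤ) * t.1 := by
      rw [← hZc]
      exact Nat.cast_mul _ _
    have c2 : (((g t).2 : ℕ) : ℤ) = (![1, 17] (Dt t) : ℤ) * t.2 := by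
      rw [← hZc]
      exact Nat.cast_mul _ _
    rw [mem_filter, mem_product, mem_Icc, mem_Icc]
    refine ⟨⟨⟨?_, ?_⟩, ?_, ?_⟩, ?_, ?_, ?_, ?_⟩
    · exact Nat.mul_pos dp (by omega)
    · exact (Nat.mul_le_mul dl hbox.1.2).trans hY1
    · exact Nat.mul_pos dp (by omega)
    · exact (Nat.mul_le_mul dl hbox.2.2).trans hY1
    · intro h0
      exact hne (Nat.eq_of_mul_eq_mul_left dp h0)
    · rw [c1, c2]
      exact o1
    · intro j
      rw [c1, c2]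
      exact o2 j
    · intro i
      rw [c1, c2]
      obtain ⟨p1, k, p2, φ, p3, p4⟩ := o3 i
      obtain ⟨q1, k', q2, φ', q3⟩ := hnB i
      refine ⟨p1, k, ?_, φ, p3, p4⟩
      apply hM X Y (by omega) hY2 hY1 k
      · exact q2.trans (Nat.cast_le.2 (le_of_inj p4 q3))
      · exact le_trans (Nat.cast_le.2 p2) q1
  have hfin : ((S \ BB).card : ℝ) ≤ (((Icc 1 X ×ˢ Icc 1 X).filter (GoodI δ X)).card : ℝ) := by
    rw [← card_image_of_injOn hg]
    exact_mod_cast card_le_card hmaps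
  refine le_trans ?_ (hSB.trans hfin)
  have hX34 : (X : ℝ) ≤ 34 * Y := by
    have : X ≤ 34 * Y := by omega
    exact_mod_cast this
  have h5 : (X : ℝ) ^ 2 ≤ (34 * Y) ^ 2 := pow_le_pow_left₀ (Nat.cast_nonneg _) hX34 2
  calc c / 2 / 34 ^ 2 * (X : ℝ) ^ 2 ≤ c / 2 / 34 ^ 2 * (34 * Y) ^ 2 :=
        mul_le_mul_of_nonneg_left h5 (by positivity)
    _ = c / 2 * (Y : ℝ) ^ 2 := by ring

end Pool.Agent.Y676.IS
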