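import Pool.Agent.Y676.IS.Fin
import Pool.Agent.Y212.RZ.Selc2

/-!
# Project IS: one curve and its three 2-isogenous curves
-/

set_option autoImplicit false
set_option linter.unusedSectionVars false

namespace Pool.Agent.Y676.IS

open WeierstrassCurve

open Pool.Agent.TH841.SH.D

open Pool.Agent.TH841.LS (WI LocI T0 coc)

open Pool.Agent.TH841.PT (EQ isR_EQ selG_eq)

open Pool.Agent.TH841.NO (SQ fo)

open Pool.Agent.W307.SE (Sel sel_fin SelR)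

/-- the other two roots, relative to the `i`-th root of `x (x - A) (x - B)` -/
def tri (i : Fin 3) (A B : ℤ) : ℤ × ℤ := ![(A, B), (-A, B - A), (-B, A - B)] i

lemma tri_ne {A B : ℤ} (hA : A ≠ 0) (hB : B ≠ 0) (hAB : A ≠ B) (i : Fin 3) :
    (tri i A B).1 ≠ 0 ∧ (tri i A B).2 ≠ 0 ∧ (tri i A B).1 ≠ (tri i A B).2 := by
  fin_cases i
  · exact ⟨hA, hB, hAB⟩
  · refine ⟨neg_ne_zero.2 hA, sub_ne_zero.2 hAB.symm, fun h => hB ?_⟩
    have h' : -A = B - A := h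
    linarith
  · refine ⟨neg_ne_zero.2 hB, sub_ne_zero.2 hAB, fun h => hA ?_⟩
    have h' : -B = A - B := h
    linarith

/-- the orders of the 2-Selmer groups of the shifted curves -/
lemma sel_tri {A B : ℤ} (hA : A ≠ 0) (hB : B ≠ 0) (hAB : A ≠ B) (i : Fin 3) :
    (Sel (tri i A B).1 (tri i A B).2).Finite ∧
      (Sel (tri i A B).1 (tri i A B).2).ncard = (Sel A B).ncard := by
  have hf : ∀ i, (Sel (tri i A B).1 (tri i A B).2).Finite := fun i =>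
    sel_fin Pool.Agent.W410.FK.seld (tri_ne hA hB hAB i).1 (tri_ne hA hB hAB i).2.1
      (tri_ne hA hB hAB i).2.2
  refine ⟨hf i, ?_⟩
  obtain ⟨e1, h1⟩ : ∃ e1, e1 = -3 * (A + B) := ⟨_, rfl⟩
  obtain ⟨e2, h2⟩ : ∃ e2, e2 = 3 * (2 * A - B) := ⟨_, rfl⟩
  obtain ⟨e3, h3⟩ : ∃ e3, e3 = 3 * (2 * B - A) := ⟨_, rfl⟩
  obtain ⟨a, ha⟩ : ∃ a, a = e1 * e2 + e1 * e3 + e2 * e3 := ⟨_, rfl⟩
  obtain ⟨b, hb⟩ : ∃ b, b = -(e1 * e2 * e3) := ⟨_, rfl⟩
  have hs : e1 + e2 + e3 = 0 := by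
    rw [h1, h2, h3]
    ring
  have hD : 4 * a ^ 3 + 27 * b ^ 2 ≠ 0 := by
    have h4 : 4 * a ^ 3 + 27 * b ^ 2 = -((e1 - e2) * (e1 - e3) * (e2 - e3)) ^ 2 := by
      rw [ha, hb]
      have h5 : e3 = -e1 - e2 := by linarith
      rw [h5]
      ring
    rw [h4]
    have h6 : (e1 - e2) * (e1 - e3) * (e2 - e3) = 729 * (A * B * (A - B)) := by
      rw [h1, h2, h3]
      ring
    rw [h6]
    exact neg_ne_zero.2 (pow_ne_zero 2 (mul_ne_zero (by norm_num)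
      (mul_ne_zero (mul_ne_zero hA hB) (sub_ne_zero.2 hAB))))
  have hcub : ∀ x : ℤ, x ^ 3 + a * x + b = (x - e1) * (x - e2) * (x - e3) := by
    intro x
    have h5 : e3 = -e1 - e2 := by linarith
    rw [ha, hb, h5]
    ring
  have key : ∀ (u v w : ℤ) (M N : ℤ), (∀ x : ℤ, x ^ 3 + a * x + b = (x - u) * (x - v) * (x - w)) →
      v - u = 9 * M → w - u = 9 * N → (Sel M N).Finite → (SelR a b).ncard = (Sel M N).ncard := by
    intro u v w M N hc hv hw hfin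
    refine (Pool.Agent.Y212.RZ.SELC2 a b u v w M N 3 hD hc (by norm_num) ?_ ?_ hfin).2
    · rw [hv]
      push_cast
      ring
    · rw [hw]
      push_cast
      ring
  have k0 := key e1 e2 e3 A B hcub (by rw [h1, h2]; ring) (by rw [h1, h3]; ring) (hf 0)
  rw [← k0]
  symm
  fin_cases i
  · exact k0
  · refine key e2 e1 e3 (-A) (B - A) (fun x => by rw [hcub]; ring) ?_ ?_ (hf 1)
    · rw [h1, h2]; ring
    · rw [h2, h3]; ring
  · refine key e3 e1 e2 (-B) (A - B) (fun x => by rw [hcub]; ring) ?_ ?_ (hf 2)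
    · rw [h1, h3]; ring
    · rw [h2, h3]; ring

/-- rank zero and no 2-torsion in the Tate-Shafarevich group -/
lemma sel4_EQ {A B : ℤ} (hA : A ≠ 0) (hB : B ≠ 0) (hAB : A ≠ B) (h4 : (Sel A B).ncard ≤ 4) :
    rk (EQ A B) = 0 ∧ ∀ x : Sha (EQ A B), x + x = 0 → x = 0 := by
  have hf : (Sel A B).Finite := sel_fin Pool.Agent.W410.FK.seld hA hB hAB
  obtain ⟨h1, h2⟩ := Pool.Agent.Y676.sha4g (EQ A B) 0 A B (isR_EQ A B) hA.symm hB.symm hAB
    (by rw [selG_eq]; exact hf) (by rw [selG_eq]; exact h4)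
  refine ⟨h1, fun x hx => ?_⟩
  have h3 := Pool.Agent.Y676.sub_tor h2 1
  have h5 : (2 ^ 1) • x = 0 := by
    rw [pow_one, two_nsmul]
    exact hx
  exact congrArg Subtype.val (h3.elim ⟨x, h5⟩ ⟨0, smul_zero _⟩)

/-- **one curve** -/
theorem one (hlcb : S_LCB) (hlqu : S_LQU) (hsqf : S_SQF) {A B : ℤ} (hA : A ≠ 0) (hB : B ≠ 0)
    (hAB : A ≠ B) (h4 : (Sel A B).ncard ≤ 4) :
    Finite (EQ A B).toAffine.Point ∧ (∀ j : ℕ, Subsingleton (ShaTor (EQ A B) (2 ^ j))) ∧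
    ∀ i : Fin 3, Finite (WI (tri i A B).1 (tri i A B).2).toAffine.Point ∧
      ∃ k : ℕ, k ≤ fo (-((tri i A B).1 + (tri i A B).2)) ((tri i A B).1 * (tri i A B).2) ∧
      ∃ φ : (Fin k → ZMod 2) →+ Sha (WI (tri i A B).1 (tri i A B).2), Function.Injective φ ∧
        ∀ x, x ∈ Set.range φ ↔ ∃ j : ℕ, (2 ^ j) • x = 0 := by
  obtain ⟨r1, r2⟩ := sel4_EQ hA hB hAB h4
  refine ⟨fin_EQ hAB hA hB r1, fun j => ⟨fun x y => ?_⟩, fun i => ?_⟩
  · apply Subtype.ext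
    rw [sub_pow' r2 j _ x.2, sub_pow' r2 j _ y.2]
  · obtain ⟨n1, n2, n3⟩ := tri_ne hA hB hAB i
    obtain ⟨s1, s2⟩ := sel_tri hA hB hAB i
    obtain ⟨q1, q2⟩ := sel4_EQ n1 n2 n3 (by rw [s2]; exact h4)
    exact ⟨fin_WI n3 n1 n2 (fin_EQ n3 n1 n2 q1), struct hlcb hlqu hsqf n3 n1 n2 q2⟩

end Pool.Agent.Y676.IS
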