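import Pool.Agent.Y676.IS.Iso
import Pool.Agent.TH841.LS.Coc
import Pool.Agent.TH841.SH.Tr
import Pool.Agent.TH841.SH.Grp
import Pool.Agent.TH841.PT.Fam3

/-!
# Project IS: the map on the Tate-Shafarevich groups, and the 2-primary part for `E'`
-/

set_option autoImplicit false
set_option linter.unusedSectionVars false

namespace Pool.Agent.Y676.IS

open WeierstrassCurve

open Pool.Agent.TH841.SH.D

open Pool.Agent.TH841.LS (WI LocI T0 coc)

open Pool.Agent.TH841.PT (EQ isR_EQ)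

/-- a homomorphism over all fields -/
structure NH (W W' : WeierstrassCurve ℚ) where
  f : ∀ (L : Type) [Field L] [Algebra ℚ L], Pt W L →+ Pt W' L
  nat : ∀ (F L : Type) [Field F] [Field L] [Algebra ℚ F] [Algebra ℚ L] (g : F →ₐ[ℚ] L)
      (P : Pt W F), act W' g (f F P) = f L (act W g P)

variable {W W' : WeierstrassCurve ℚ}

/-- the push forward of a cochain -/
noncomputable def NH.psh (ψ : NH W W') (c : Coch W) : Coch W' := fun σ => ψ.f _ (c σ)

lemma NH.psh_coc (ψ : NH W W') {c : Coch W} (h : IsCoc W c) : IsCoc W' (ψ.psh c) := by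
  refine ⟨h.1.comp _, fun σ τ => ?_⟩
  change ψ.f _ (c (σ * τ)) = ψ.f _ (c σ) + act W' σ.toAlgHom (ψ.f _ (c τ))
  rw [h.2, map_add, ψ.nat]

lemma NH.psh_cob (ψ : NH W W') {c : Coch W} (h : IsCob W c) : IsCob W' (ψ.psh c) := by
  obtain ⟨P, hP⟩ := h
  refine ⟨ψ.f _ P, fun σ => ?_⟩
  change ψ.f _ (c σ) = _
  rw [hP, map_sub, ψ.nat]

lemma NH.psh_loc (ψ : NH W W') {K : Type} [Field K] [Algebra ℚ K] {c : Coch W}
    (h : LocTriv W K c) : LocTriv W' K (ψ.psh c) := by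
  intro ι
  obtain ⟨P, hP⟩ := h ι
  refine ⟨ψ.f _ P, fun τ σ hτ => ?_⟩
  change act W' ι (ψ.f _ (c σ)) = _
  rw [ψ.nat, hP τ σ hτ, map_sub, ψ.nat]

/-- the push forward on the cocycles -/
noncomputable def NH.shaC (ψ : NH W W') : shaCoc W →+ shaCoc W' where
  toFun c := ⟨ψ.psh c.1, ψ.psh_coc c.2.1, fun p _ => ψ.psh_loc (c.2.2.1 p), ψ.psh_loc c.2.2.2⟩
  map_zero' := Subtype.ext (by
    funext σ
    exact map_zero (ψ.f _))
  map_add' c c' := Subtype.ext (by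
    funext σ
    exact map_add (ψ.f _) _ _)

/-- the push forward on the Tate-Shafarevich groups -/
noncomputable def NH.sha (ψ : NH W W') : Sha W →+ Sha W' :=
  QuotientAddGroup.map ((cob W).addSubgroupOf (shaCoc W)) ((cob W').addSubgroupOf (shaCoc W'))
    ψ.shaC (fun _ h => ψ.psh_cob h)

/-- the class of a cocycle -/
noncomputable def cls (W : WeierstrassCurve ℚ) (c : shaCoc W) : Sha W :=
  QuotientAddGroup.mk' ((cob W).addSubgroupOf (shaCoc W)) c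

lemma cls_surj (x : Sha W) : ∃ c, cls W c = x := QuotientAddGroup.mk'_surjective _ x

lemma cls_add (c c' : shaCoc W) : cls W (c + c') = cls W c + cls W c' := rfl

lemma cls_zero_iff (c : shaCoc W) : cls W c = 0 ↔ IsCob W c.1 := by
  have h1 : cls W c = 0 ↔ c ∈ (QuotientAddGroup.mk' ((cob W).addSubgroupOf (shaCoc W))).ker :=
    Iff.rfl
  rw [h1, QuotientAddGroup.ker_mk', AddSubgroup.mem_addSubgroupOf]
  rfl

lemma cls_eq {c c' : shaCoc W} (h : IsCob W (c.1 - c'.1)) : cls W c = cls W c' := by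
  have h1 : cls W (c - c') = 0 := (cls_zero_iff _).2 h
  have h2 : cls W (c - c') = cls W c - cls W c' := rfl
  rw [h2] at h1
  exact sub_eq_zero.1 h1

lemma sha_cls (ψ : NH W W') (c : shaCoc W) : ψ.sha (cls W c) = cls W' (ψ.shaC c) := rfl

/-- the isogeny -/
theorem exists_NH {A B : ℤ} (h : A ≠ B) (hA : A ≠ 0) (hB : B ≠ 0) :
    ∃ (ψ : NH (WI A B) (EQ A B)) (φ : NH (EQ A B) (WI A B)),
    (∀ (L : Type) [Field L] [Algebra ℚ L] (P : Pt (WI A B) L), φ.f L (ψ.f L P) = P + P) ∧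
    (∀ (L : Type) [Field L] [Algebra ℚ L] (P : Pt (EQ A B) L), ψ.f L (φ.f L P) = P + P) ∧
    (∀ (L : Type) [Field L] [Algebra ℚ L] (P : Pt (WI A B) L),
      ψ.f L P = 0 → P = 0 ∨ P = T0 h L) := by
  obtain ⟨psi, phi, n1, n2, h1, h2, h3⟩ := iso A B h hA hB
  exact ⟨⟨psi, n1⟩, ⟨phi, n2⟩, h1, h2, h3⟩

lemma cob_shaCoc {b : Coch W} (hb : IsCob W b) : b ∈ shaCoc W := by
  obtain ⟨P, hP⟩ := hb
  rw [sha_iff]
  have h1 : b = _ := funext hP
  rw [h1]
  exact ⟨⟨Pool.Agent.TH841.SH.lc_cob W P, Pool.Agent.TH841.SH.coc_cob W P⟩,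
    (Pool.Agent.TH841.SH.evLoc_cob W P).1, (Pool.Agent.TH841.SH.evLoc_cob W P).2⟩

section

attribute [-instance] DivisionRing.toRatAlgebra

/-- division by two over the algebraic closure -/
lemma div2 {A B : ℤ} (h : A ≠ B) (hA : A ≠ 0) (hB : B ≠ 0)
    (P : Pt (EQ A B) (AlgebraicClosure ℚ)) : ∃ Q, Q + Q = P := by
  classical
  have hi : Function.Injective (algebraMap ℚ (AlgebraicClosure ℚ)) :=
    (algebraMap ℚ (AlgebraicClosure ℚ)).injective
  have a1 : ((0 : ℤ) : ℚ) ≠ A := by exact_mod_cast hA.symm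
  have a2 : ((0 : ℤ) : ℚ) ≠ B := by exact_mod_cast hB.symm
  have a3 : (A : ℚ) ≠ B := by exact_mod_cast h
  have h1 := fun P => ((isR_EQ A B).base (AlgebraicClosure ℚ)).div two_ne_zero (hi.ne a1)
    (hi.ne a2) (hi.ne a3) P
  obtain ⟨Q, hQ⟩ := h1 P
  exact ⟨Q, hQ.symm⟩

lemma T0_ne {A B : ℤ} (h : A ≠ B) (L : Type) [Field L] [Algebra ℚ L] : T0 h L ≠ 0 :=
  Affine.Point.some_ne_zero _

/-- a cocycle with values `0`, `T` is of the form `χ_d T` -/
lemma coc_of {A B : ℤ} (h : A ≠ B) {c : Coch (WI A B)} (hc : IsCoc (WI A B) c)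
    (hv : ∀ σ, c σ = 0 ∨ c σ = T0 h (AlgebraicClosure ℚ)) :
    ∃ d : ℤ, Squarefree d ∧ c = coc h d := by
  classical
  have hfix : ∀ (σ τ : Gal ℚ), act (WI A B) σ.toAlgHom (c τ) = c τ := by
    intro σ τ
    rcases hv τ with h1 | h1
    · rw [h1, map_zero]
    · rw [h1]
      exact Pool.Agent.TH841.LS.COCf.act_T0 h σ
  have hadd : ∀ σ τ, c (σ * τ) = c σ + c τ := fun σ τ => by rw [hc.2, hfix]
  have hTT : T0 h (AlgebraicClosure ℚ) + T0 h (AlgebraicClosure ℚ) = 0 :=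
    Pool.Agent.TH841.LS.COCf.T0_add h
  have hT0 := T0_ne h (AlgebraicClosure ℚ)
  let χ : Gal ℚ → Bool := (fun P : Pt (WI A B) (AlgebraicClosure ℚ) => decide (P ≠ 0)) ∘ c
  have x0 : ∀ σ, c σ = 0 → χ σ = false := fun σ hσ => by
    show decide (c σ ≠ 0) = false
    rw [decide_eq_false_iff_not, not_not]
    exact hσ
  have x1 : ∀ σ, c σ = T0 h (AlgebraicClosure ℚ) → χ σ = true := fun σ hσ => by
    show decide (c σ ≠ 0) = true
    rw [decide_eq_true_iff, hσ]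
    exact hT0
  have hm : ∀ σ τ, χ (σ * τ) = xor (χ σ) (χ τ) := by
    intro σ τ
    have e := hadd σ τ
    rcases hv σ with h1 | h1
    · rcases hv τ with h2 | h2
      · rw [h1, h2, add_zero] at e
        rw [x0 _ h1, x0 _ h2, x0 _ e]
        rfl
      · rw [h1, h2, zero_add] at e
        rw [x0 _ h1, x1 _ h2, x1 _ e]
        rfl
    · rcases hv τ with h2 | h2
      · rw [h1, h2, add_zero] at e
        rw [x1 _ h1, x0 _ h2, x1 _ e]
        rfl
      · rw [h1, h2] at e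
        rw [x1 _ h1, x1 _ h2, x0 _ (e.trans hTT)]
        rfl
  obtain ⟨e, he, hes⟩ := Pool.Agent.TH841.SH.kum χ (hc.1.comp _) hm
  refine ⟨e, he, ?_⟩
  obtain ⟨s, hs⟩ := Pool.Agent.TH841.LS.COCf.exists_root e
  funext σ
  have h1 := hes s hs σ
  rcases hv σ with h2 | h2
  · exact h2.trans ((Pool.Agent.TH841.LS.COCf.coc_eq h hs σ).1 (h1.2 (x0 _ h2))).symm
  · refine h2.trans ((Pool.Agent.TH841.LS.COCf.coc_eq h hs σ).2 fun h4 => ?_).symm
    have h5 := h1.1 h4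
    rw [x1 _ h2] at h5
    exact absurd h5 (by decide)

/-- no 2-primary part -/
lemma sub_pow' {G : Type} [AddCommGroup G] (h : ∀ x : G, x + x = 0 → x = 0) (j : ℕ) (x : G)
    (hx : (2 ^ j) • x = 0) : x = 0 := by
  induction j with
  | zero => simpa using hx
  | succ j ih =>
    apply ih
    apply h
    rw [← two_nsmul, ← mul_smul]
    rw [pow_succ, mul_comm] at hx
    exact hx

/-- every class killed by a power of two is the class of a cocycle `χ_d T` -/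
theorem prim0 {A B : ℤ} (h : A ≠ B) (hA : A ≠ 0) (hB : B ≠ 0)
    (hSha : ∀ x : Sha (EQ A B), x + x = 0 → x = 0) (x : Sha (WI A B)) (j : ℕ)
    (hx : (2 ^ j) • x = 0) :
    ∃ d : ℤ, Squarefree d ∧ ∃ hd : coc h d ∈ shaCoc (WI A B),
      cls (WI A B) ⟨coc h d, hd⟩ = x := by
  obtain ⟨ψ, φ, h1, h2, h3⟩ := exists_NH h hA hB
  have hz : ψ.sha x = 0 := by
    apply sub_pow' hSha j
    rw [← map_nsmul, hx, map_zero]
  obtain ⟨c, rfl⟩ := cls_surj x
  rw [sha_cls, cls_zero_iff] at hz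
  obtain ⟨Q, hQ⟩ := hz
  obtain ⟨R, hR⟩ := div2 h hA hB Q
  have hP : ψ.f _ (φ.f _ R) = Q := by rw [h2, hR]
  obtain ⟨P, hPd⟩ : ∃ P, P = φ.f (AlgebraicClosure ℚ) R := ⟨_, rfl⟩
  rw [← hPd] at hP
  let c' : Coch (WI A B) := fun σ => c.1 σ - (act (WI A B) σ.toAlgHom P - P)
  have hd : IsCob (WI A B) (c.1 - c') := by
    refine ⟨P, fun σ => ?_⟩
    change c.1 σ - (c.1 σ - (act (WI A B) σ.toAlgHom P - P)) = _
    abel
  have hsub : c' = c.1 - (c.1 - c') := by abel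
  have hbc : c.1 - c' ∈ shaCoc (WI A B) := cob_shaCoc hd
  have hc' : c' ∈ shaCoc (WI A B) := by
    rw [hsub]
    exact sub_mem c.2 hbc
  have hv : ∀ σ, c' σ = 0 ∨ c' σ = T0 h (AlgebraicClosure ℚ) := by
    intro σ
    apply h3
    change ψ.f _ (c.1 σ - (act (WI A B) σ.toAlgHom P - P)) = 0
    have h4 : ψ.f _ (c.1 σ) = act (EQ A B) σ.toAlgHom Q - Q := hQ σ
    rw [map_sub, map_sub, ← ψ.nat, hP, h4, sub_self]
  obtain ⟨d, hsq, hcd⟩ := coc_of h hc'.1 hv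
  rw [hcd] at hc'
  refine ⟨d, hsq, hc', ?_⟩
  apply cls_eq
  have e1 : coc h d - c.1 = -(c.1 - c') := by
    rw [← hcd]
    abel
  rw [show ((⟨coc h d, hc'⟩ : shaCoc (WI A B)) : Coch (WI A B)) = coc h d from rfl, e1]
  exact cob_neg hd

end

/-- **the 2-primary part of the Tate-Shafarevich group of `E'`** -/
theorem prim (hlcb : S_LCB) (hlqu : S_LQU) {A B : ℤ} (h : A ≠ B) (hA : A ≠ 0) (hB : B ≠ 0)
    (hSha : ∀ x : Sha (EQ A B), x + x = 0 → x = 0) (x : Sha (WI A B)) (j : ℕ)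
    (hx : (2 ^ j) • x = 0) :
    ∃ d ∈ Pool.Agent.TH841.NO.SQ (-(A + B)) (A * B), ∃ hd : coc h d ∈ shaCoc (WI A B),
      cls (WI A B) ⟨coc h d, hd⟩ = x := by
  obtain ⟨d, hsq, hd, he⟩ := prim0 h hA hB hSha x j hx
  exact ⟨d, hlqu A B d hA hB h hsq (hlcb A B h d hA hB hsq.ne_zero ℝ hd.2.2)
    (fun p _ => hlcb A B h d hA hB hsq.ne_zero ℚ_[p] (hd.2.1 p)), hd, he⟩

end Pool.Agent.Y676.IS
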